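import Pool.Agent.RepPara.ExpSum
import Pool.Agent.RepTile.Fourier

/-!
# Reptiles made of parallelograms: the analytic core

`V ξ = ∑ j, c j * exp ⟪a j, ξ⟫ * EE ⟪v j, ξ⟫ * EE ⟪w j, ξ⟫` is the Laplace transform of a finite
union of nonoverlapping parallelograms.
-/

namespace Pool.Agent.RepPara

open Filter Topology RepTile

/-- `(exp z - 1) / z` -/
noncomputable def EE (z : ℝ) : ℝ := ∫ t in (0 : ℝ)..1, Real.exp (z * t)

theorem EE_mul (z : ℝ) : z * EE z = Real.exp z - 1 := by
  unfold EE
  rw [intervalIntegral.mul_integral_comp_mul_left (f := Real.exp), integral_exp, mul_one, mul_zero,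
    Real.exp_zero]

theorem EE_zero : EE 0 = 1 := by simp [EE]

private theorem EE_int (z : ℝ) : IntervalIntegrable (fun t => Real.exp (z * t)) MeasureTheory.volume 0 1 :=
  (by fun_prop : Continuous fun t : ℝ => Real.exp (z * t)).intervalIntegrable 0 1

theorem EE_le (z : ℝ) : EE z ≤ Real.exp |z| := by
  have h : EE z ≤ ∫ _t in (0 : ℝ)..1, Real.exp |z| := by
    refine intervalIntegral.integral_mono_on zero_le_one (EE_int z)
      intervalIntegrable_const fun t ht => Real.exp_le_exp.mpr ?_
    calc z * t ≤ |z| * t := mul_le_mul_of_nonneg_right (le_abs_self z) ht.1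
      _ ≤ |z| * 1 := mul_le_mul_of_nonneg_left ht.2 (abs_nonneg z)
      _ = |z| := mul_one _
  simpa using h

theorem le_EE (z : ℝ) : Real.exp (-|z|) ≤ EE z := by
  have h : ∫ _t in (0 : ℝ)..1, Real.exp (-|z|) ≤ EE z := by
    refine intervalIntegral.integral_mono_on zero_le_one intervalIntegrable_const (EE_int z)
      fun t ht => Real.exp_le_exp.mpr ?_
    have h1 : -(z * t) ≤ |z| := by
      calc -(z * t) = (-z) * t := by ring
        _ ≤ |z| * t := mul_le_mul_of_nonneg_right (neg_le_abs z) ht.1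
        _ ≤ |z| * 1 := mul_le_mul_of_nonneg_left ht.2 (abs_nonneg z)
        _ = |z| := mul_one _
    linarith
  simpa using h

theorem EE_pos (z : ℝ) : 0 < EE z := lt_of_lt_of_le (Real.exp_pos _) (le_EE z)

/-- data of finitely many parallelograms: area, corner, edges -/
structure Dat (κ : Type*) where
  c : κ → ℝ
  a : κ → E2
  v : κ → E2
  w : κ → E2
  c_pos : ∀ j, 0 < c j
  ind : ∀ j u, inner ℝ (v j) u = 0 → inner ℝ (w j) u = 0 → u = 0

variable {κ : Type*} [Fintype κ] (D : Dat κ)

/-- Laplace transform of one parallelogram -/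
noncomputable def Vj (j : κ) (ξ : E2) : ℝ :=
  D.c j * (Real.exp (inner ℝ (D.a j) ξ) * (EE (inner ℝ (D.v j) ξ) * EE (inner ℝ (D.w j) ξ)))

/-- Laplace transform -/
noncomputable def V (ξ : E2) : ℝ := ∑ j, Vj D j ξ

/-- one of the edges of the parallelogram is orthogonal to `u` -/
def On (j : κ) (u : E2) : Prop := inner ℝ (D.v j) u = 0 ∨ inner ℝ (D.w j) u = 0

omit [Fintype κ] in
theorem Vj_pos (j : κ) (ξ : E2) : 0 < Vj D j ξ :=
  mul_pos (D.c_pos j) (mul_pos (Real.exp_pos _) (mul_pos (EE_pos _) (EE_pos _)))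

omit [Fintype κ] in
theorem Vj_zero (j : κ) : Vj D j 0 = D.c j := by
  simp [Vj, EE_zero]

theorem V_pos [Nonempty κ] (ξ : E2) : 0 < V D ξ :=
  Finset.sum_pos (fun j _ => Vj_pos D j ξ) Finset.univ_nonempty

/-- size of the data -/
noncomputable def rho : ℝ := ∑ j, (‖D.a j‖ + ‖D.v j‖ + ‖D.w j‖)

theorem rho_nonneg : 0 ≤ rho D := Finset.sum_nonneg fun j _ => by positivity

theorem Vj_bound (j : κ) (ξ : E2) :
    |Vj D j ξ - D.c j| ≤ D.c j * (rho D * ‖ξ‖ * Real.exp (rho D * ‖ξ‖)) := by
  set S : ℝ := |inner ℝ (D.a j) ξ| + |inner ℝ (D.v j) ξ| + |inner ℝ (D.w j) ξ| with hS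
  set Q : ℝ := Real.exp (inner ℝ (D.a j) ξ) * (EE (inner ℝ (D.v j) ξ) * EE (inner ℝ (D.w j) ξ))
    with hQ
  have hS0 : 0 ≤ S := by positivity
  have hSr : S ≤ rho D * ‖ξ‖ := by
    have h1 : S ≤ (‖D.a j‖ + ‖D.v j‖ + ‖D.w j‖) * ‖ξ‖ := by
      have h2 := abs_real_inner_le_norm (D.a j) ξ
      have h3 := abs_real_inner_le_norm (D.v j) ξ
      have h4 := abs_real_inner_le_norm (D.w j) ξ
      rw [hS]
      linarith
    refine h1.trans (mul_le_mul_of_nonneg_right ?_ (norm_nonneg _))
    exact Finset.single_le_sum (f := fun j => ‖D.a j‖ + ‖D.v j‖ + ‖D.w j‖)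
      (fun j _ => by positivity) (Finset.mem_univ j)
  have hup : Q ≤ Real.exp S := by
    rw [hS, Real.exp_add, Real.exp_add, mul_assoc]
    refine mul_le_mul (Real.exp_le_exp.mpr (le_abs_self _)) ?_
      (mul_pos (EE_pos _) (EE_pos _)).le (Real.exp_pos _).le
    exact mul_le_mul (EE_le _) (EE_le _) (EE_pos _).le (Real.exp_pos _).le
  have hlo : Real.exp (-S) ≤ Q := by
    rw [hS, neg_add, neg_add, Real.exp_add, Real.exp_add, mul_assoc]
    refine mul_le_mul (Real.exp_le_exp.mpr (neg_abs_le _)) ?_ (by positivity) (Real.exp_pos _).le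
    exact mul_le_mul (le_EE _) (le_EE _) (Real.exp_pos _).le (EE_pos _).le
  have h1 : |Q - 1| ≤ S * Real.exp S := by
    have e1 := Real.add_one_le_exp (-S)
    have e2 := Real.add_one_le_exp S
    have e3 : Real.exp S * Real.exp (-S) = 1 := by rw [← Real.exp_add, add_neg_cancel, Real.exp_zero]
    have e4 : 1 ≤ Real.exp S := Real.one_le_exp hS0
    rw [abs_le]
    constructor
    · nlinarith
    · nlinarith [Real.exp_pos S]
  have h2 : Vj D j ξ - D.c j = D.c j * (Q - 1) := by
    rw [hQ]; unfold Vj; ring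
  rw [h2, abs_mul, abs_of_pos (D.c_pos j)]
  refine mul_le_mul_of_nonneg_left (h1.trans ?_) (D.c_pos j).le
  exact mul_le_mul hSr (Real.exp_le_exp.mpr hSr) (Real.exp_pos _).le (hS0.trans hSr)

open Classical in
/-- the part of the Laplace transform with a pole of order 1 -/
noncomputable def gj (j : κ) (u : E2) : ℝ →₀ ℝ :=
  if inner ℝ (D.v j) u = 0 then
    (D.c j / inner ℝ (D.w j) u) • (Finsupp.single (inner ℝ (D.a j) u + inner ℝ (D.w j) u) 1 -
      Finsupp.single (inner ℝ (D.a j) u) 1)
  else if inner ℝ (D.w j) u = 0 then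
    (D.c j / inner ℝ (D.v j) u) • (Finsupp.single (inner ℝ (D.a j) u + inner ℝ (D.v j) u) 1 -
      Finsupp.single (inner ℝ (D.a j) u) 1)
  else 0

open Classical in
/-- the part with a pole of order 2 -/
noncomputable def cj (j : κ) (u : E2) : ℝ →₀ ℝ :=
  if On D j u then 0 else
    (D.c j / (inner ℝ (D.v j) u * inner ℝ (D.w j) u)) •
      (Finsupp.single (inner ℝ (D.a j) u + inner ℝ (D.v j) u + inner ℝ (D.w j) u) 1 -
        Finsupp.single (inner ℝ (D.a j) u + inner ℝ (D.v j) u) 1 -
        Finsupp.single (inner ℝ (D.a j) u + inner ℝ (D.w j) u) 1 +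
        Finsupp.single (inner ℝ (D.a j) u) 1)

omit [Fintype κ] in
theorem gj_off {j : κ} {u : E2} (h : ¬ On D j u) : gj D j u = 0 := by
  unfold gj
  rw [if_neg fun h1 => h (Or.inl h1), if_neg fun h1 => h (Or.inr h1)]

omit [Fintype κ] in
theorem cj_on {j : κ} {u : E2} (h : On D j u) : cj D j u = 0 := by
  unfold cj
  rw [if_pos h]

private theorem inner_smul' (x u : E2) (s : ℝ) : inner ℝ x (s • u) = s * inner ℝ x u := by
  rw [inner_smul_right]

omit [Fintype κ] in
theorem ev_gj {j : κ} {u : E2} (hu : u ≠ 0) (h : On D j u) (s : ℝ) :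
    ev (gj D j u) s = s * Vj D j (s • u) := by
  by_cases hv : inner ℝ (D.v j) u = 0
  · have hw : inner ℝ (D.w j) u ≠ 0 := fun hw => hu (D.ind j u hv hw)
    unfold gj Vj
    rw [if_pos hv, ev_smul, ev_sub, ev_single, ev_single, inner_smul', inner_smul', inner_smul', hv,
      mul_zero, EE_zero, one_mul, add_mul, Real.exp_add]
    have h1 := EE_mul (s * inner ℝ (D.w j) u)
    have h2 : Real.exp (inner ℝ (D.w j) u * s) = Real.exp (s * inner ℝ (D.w j) u) := by
      rw [mul_comm]
    have h3 : Real.exp (inner ℝ (D.a j) u * s) = Real.exp (s * inner ℝ (D.a j) u) := by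
      rw [mul_comm]
    rw [h2, h3]
    have e1 : Real.exp (s * inner ℝ (D.w j) u) =
        1 + s * inner ℝ (D.w j) u * EE (s * inner ℝ (D.w j) u) := by linarith
    rw [e1]
    field_simp
    ring
  · have hw : inner ℝ (D.w j) u = 0 := h.resolve_left hv
    unfold gj Vj
    rw [if_neg hv, if_pos hw, ev_smul, ev_sub, ev_single, ev_single, inner_smul', inner_smul',
      inner_smul', hw, mul_zero, EE_zero, mul_one, add_mul, Real.exp_add]
    have h1 := EE_mul (s * inner ℝ (D.v j) u)
    have h2 : Real.exp (inner ℝ (D.v j) u * s) = Real.exp (s * inner ℝ (D.v j) u) := by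
      rw [mul_comm]
    have h3 : Real.exp (inner ℝ (D.a j) u * s) = Real.exp (s * inner ℝ (D.a j) u) := by
      rw [mul_comm]
    rw [h2, h3]
    have e1 : Real.exp (s * inner ℝ (D.v j) u) =
        1 + s * inner ℝ (D.v j) u * EE (s * inner ℝ (D.v j) u) := by linarith
    rw [e1]
    field_simp
    ring

omit [Fintype κ] in
theorem ev_cj {j : κ} {u : E2} (h : ¬ On D j u) (s : ℝ) :
    ev (cj D j u) s = s ^ 2 * Vj D j (s • u) := by
  have hv : inner ℝ (D.v j) u ≠ 0 := fun h1 => h (Or.inl h1)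
  have hw : inner ℝ (D.w j) u ≠ 0 := fun h1 => h (Or.inr h1)
  unfold cj Vj
  rw [if_neg h, ev_smul, ev_add, ev_sub, ev_sub, ev_single, ev_single, ev_single, ev_single,
    inner_smul', inner_smul', inner_smul', add_mul, add_mul, add_mul, Real.exp_add, Real.exp_add,
    Real.exp_add]
  have h1 := EE_mul (s * inner ℝ (D.v j) u)
  have h1' := EE_mul (s * inner ℝ (D.w j) u)
  have h2 : Real.exp (inner ℝ (D.v j) u * s) = Real.exp (s * inner ℝ (D.v j) u) := by
    rw [mul_comm]
  have h2' : Real.exp (inner ℝ (D.w j) u * s) = Real.exp (s * inner ℝ (D.w j) u) := by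
    rw [mul_comm]
  have h3 : Real.exp (inner ℝ (D.a j) u * s) = Real.exp (s * inner ℝ (D.a j) u) := by
    rw [mul_comm]
  rw [h2, h2', h3]
  have e1 : Real.exp (s * inner ℝ (D.v j) u) = 1 + s * inner ℝ (D.v j) u * EE (s * inner ℝ (D.v j) u) := by
    linarith
  have e2 : Real.exp (s * inner ℝ (D.w j) u) = 1 + s * inner ℝ (D.w j) u * EE (s * inner ℝ (D.w j) u) := by
    linarith
  rw [e1, e2]
  field_simp
  ring

/-- all the parts with poles of order 1 -/
noncomputable def gF (u : E2) : ℝ →₀ ℝ := ∑ j, gj D j u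

/-- all the parts with poles of order 2 -/
noncomputable def cF (u : E2) : ℝ →₀ ℝ := ∑ j, cj D j u

open Classical in
/-- the sum over the parallelograms with an edge orthogonal to `u` -/
noncomputable def GG (u : E2) (s : ℝ) : ℝ := ∑ j, if On D j u then Vj D j (s • u) else 0

open Classical in
/-- total area of the parallelograms with an edge orthogonal to `u` -/
noncomputable def gam (u : E2) : ℝ := ∑ j, if On D j u then D.c j else 0

/-- total area -/
noncomputable def V0 : ℝ := ∑ j, D.c j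

theorem ev_gF {u : E2} (hu : u ≠ 0) (s : ℝ) : ev (gF D u) s = s * GG D u s := by
  classical
  unfold gF GG
  rw [ev_sum, Finset.mul_sum]
  refine Finset.sum_congr rfl fun j _ => ?_
  by_cases h : On D j u
  · rw [if_pos h, ev_gj D hu h]
  · rw [if_neg h, gj_off D h, ev_zero, mul_zero]

theorem ev_gF_cF {u : E2} (hu : u ≠ 0) (s : ℝ) :
    s ^ 2 * V D (s • u) = s * ev (gF D u) s + ev (cF D u) s := by
  classical
  unfold V gF cF
  rw [ev_sum, ev_sum, Finset.mul_sum, Finset.mul_sum, ← Finset.sum_add_distrib]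
  refine Finset.sum_congr rfl fun j _ => ?_
  by_cases h : On D j u
  · rw [cj_on D h, ev_zero, ev_gj D hu h]
    ring
  · rw [gj_off D h, ev_zero, ev_cj D h]
    ring

theorem mas_gF {u : E2} (hu : u ≠ 0) : mas (gF D u) = 0 := by
  rw [← ev_at_zero, ev_gF D hu, zero_mul]

theorem gam_nonneg (u : E2) : 0 ≤ gam D u := by
  classical
  refine Finset.sum_nonneg fun j _ => ?_
  by_cases h : On D j u
  · rw [if_pos h]; exact (D.c_pos j).le
  · rw [if_neg h]

theorem gam_le (u : E2) : gam D u ≤ V0 D := by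
  classical
  refine Finset.sum_le_sum fun j _ => ?_
  by_cases h : On D j u
  · rw [if_pos h]
  · rw [if_neg h]; exact (D.c_pos j).le

theorem le_gam {j : κ} {u : E2} (h : On D j u) : D.c j ≤ gam D u := by
  classical
  have h1 := Finset.single_le_sum (f := fun j => if On D j u then D.c j else 0)
    (fun j _ => by
      by_cases h : On D j u
      · simp only [if_pos h]; exact (D.c_pos j).le
      · simp only [if_neg h]; exact le_rfl) (Finset.mem_univ j)
  simp only [if_pos h] at h1
  exact h1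

theorem gam_eq_iff (u : E2) : gam D u = V0 D ↔ ∀ j, On D j u := by
  classical
  constructor
  · intro h j
    by_contra hj
    have h1 : gam D u < V0 D := by
      refine Finset.sum_lt_sum (fun j _ => ?_) ⟨j, Finset.mem_univ j, ?_⟩
      · by_cases h : On D j u
        · rw [if_pos h]
        · rw [if_neg h]; exact (D.c_pos j).le
      · rw [if_neg hj]; exact D.c_pos j
    exact absurd h h1.ne
  · intro h
    unfold gam V0
    exact Finset.sum_congr rfl fun j _ => if_pos (h j)

theorem V0_eq : V D 0 = V0 D := by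
  unfold V V0
  exact Finset.sum_congr rfl fun j _ => Vj_zero D j

theorem V0_pos [Nonempty κ] : 0 < V0 D := by rw [← V0_eq]; exact V_pos D 0

theorem GG_zero (u : E2) : GG D u 0 = gam D u := by
  classical
  unfold GG gam
  refine Finset.sum_congr rfl fun j _ => ?_
  rw [zero_smul, Vj_zero]

/-- the functional equation of a dissection -/
structure Sys {ι : Type*} [Fintype ι] (r : ℝ) (τ : ι → E2) (B : ι → E2 ≃ₗᵢ[ℝ] E2) : Prop where
  r0 : 0 < r
  r1 : r < 1
  card : (Fintype.card ι : ℝ) * r ^ 2 = 1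
  eq : ∀ ξ, V D ξ = r ^ 2 * ∑ i, Real.exp (inner ℝ (τ i) ξ) * V D (r • B i ξ)

variable {D} {ι : Type*} [Fintype ι] {r : ℝ} {τ : ι → E2} {B : ι → E2 ≃ₗᵢ[ℝ] E2}

theorem ne_zero_of_norm {u : E2} (hu : ‖u‖ = 1) : u ≠ 0 := by
  rintro rfl
  rw [norm_zero] at hu
  exact zero_ne_one hu

/-- the equation of the net edges -/
theorem star (S : Sys D r τ B) {u : E2} (hu : ‖u‖ = 1) :
    gF D u = r • ∑ i, (gF D (B i u)).mapDomain fun y => r * y + inner ℝ (τ i) u := by
  have hu0 := ne_zero_of_norm hu
  have hB : ∀ i, B i u ≠ 0 := fun i => ne_zero_of_norm (by rw [(B i).norm_map, hu])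
  have hr := S.r0.ne'
  have key := sep (gF D u - r • ∑ i, (gF D (B i u)).mapDomain fun y => r * y + inner ℝ (τ i) u)
    (cF D u - ∑ i, (cF D (B i u)).mapDomain fun y => r * y + inner ℝ (τ i) u) ?_
  · exact sub_eq_zero.mp key.1
  · intro s
    rw [ev_sub, ev_sub, ev_smul, ev_sum, ev_sum]
    have h1 := ev_gF_cF D hu0 s
    rw [S.eq (s • u)] at h1
    have h2 : ∀ i, Real.exp (inner ℝ (τ i) (s • u)) * V D (r • B i (s • u)) * r ^ 2 * s ^ 2 =
        Real.exp (inner ℝ (τ i) u * s) * (r * s * ev (gF D (B i u)) (r * s) +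
          ev (cF D (B i u)) (r * s)) := by
      intro i
      have h3 := ev_gF_cF D (hB i) (r * s)
      have h4 : r • B i (s • u) = (r * s) • B i u := by
        rw [map_smul, smul_smul]
      rw [h4, inner_smul', ← h3, mul_comm s]
      ring
    have h5 : s ^ 2 * (r ^ 2 * ∑ i, Real.exp (inner ℝ (τ i) (s • u)) * V D (r • B i (s • u))) =
        ∑ i, Real.exp (inner ℝ (τ i) u * s) * (r * s * ev (gF D (B i u)) (r * s) +
          ev (cF D (B i u)) (r * s)) := by
      rw [Finset.mul_sum, Finset.mul_sum]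
      refine Finset.sum_congr rfl fun i _ => ?_
      rw [← h2 i]
      ring
    rw [h5] at h1
    have h6 : s * (r * ∑ i, ev ((gF D (B i u)).mapDomain fun y => r * y + inner ℝ (τ i) u) s) +
        ∑ i, ev ((cF D (B i u)).mapDomain fun y => r * y + inner ℝ (τ i) u) s =
        ∑ i, Real.exp (inner ℝ (τ i) u * s) * (r * s * ev (gF D (B i u)) (r * s) +
          ev (cF D (B i u)) (r * s)) := by
      rw [Finset.mul_sum, Finset.mul_sum, ← Finset.sum_add_distrib]
      refine Finset.sum_congr rfl fun i _ => ?_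
      rw [ev_mapDomain, ev_mapDomain]
      ring
    linarith

theorem GG_eq (S : Sys D r τ B) {u : E2} (hu : ‖u‖ = 1) {s : ℝ} (hs : s ≠ 0) :
    GG D u s = r ^ 2 * ∑ i, Real.exp (inner ℝ (τ i) u * s) * GG D (B i u) (r * s) := by
  have hu0 := ne_zero_of_norm hu
  have hB : ∀ i, B i u ≠ 0 := fun i => ne_zero_of_norm (by rw [(B i).norm_map, hu])
  have h1 := ev_gF D hu0 s
  rw [star S hu, ev_smul, ev_sum] at h1
  have h2 : s * GG D u s = s * (r ^ 2 * ∑ i, Real.exp (inner ℝ (τ i) u * s) *
      GG D (B i u) (r * s)) := by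
    rw [← h1, Finset.mul_sum, Finset.mul_sum, Finset.mul_sum]
    refine Finset.sum_congr rfl fun i _ => ?_
    rw [ev_mapDomain, ev_gF D (hB i)]
    ring
  exact mul_left_cancel₀ hs h2

theorem V_eq (S : Sys D r τ B) (u : E2) (s : ℝ) :
    V D (s • u) = r ^ 2 * ∑ i, Real.exp (inner ℝ (τ i) u * s) * V D ((r * s) • B i u) := by
  rw [S.eq]
  congr 1
  refine Finset.sum_congr rfl fun i _ => ?_
  rw [map_smul, smul_smul, inner_smul', mul_comm s]

theorem gam_eq (S : Sys D r τ B) {u : E2} (hu : ‖u‖ = 1) :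
    gam D u = r ^ 2 * ∑ i, gam D (B i u) := by
  -- first moments of `star`
  have hB : ∀ i, B i u ≠ 0 := fun i => ne_zero_of_norm (by rw [(B i).norm_map, hu])
  have hmom : ∀ u : E2, u ≠ 0 → mom (gF D u) = gam D u := by
    classical
    intro u hu0
    unfold gF gam
    show momL (∑ j, gj D j u) = _
    rw [map_sum]
    refine Finset.sum_congr rfl fun j _ => ?_
    by_cases h : On D j u
    · rw [if_pos h]
      have hs : ∀ y : ℝ, momL (Finsupp.single y 1) = y := by
        intro y
        show mom (Finsupp.single y 1) = y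
        unfold mom
        rw [Finsupp.sum_single_index (by simp), one_mul]
      by_cases hv : inner ℝ (D.v j) u = 0
      · have hw : inner ℝ (D.w j) u ≠ 0 := fun hw => hu0 (D.ind j u hv hw)
        unfold gj
        rw [if_pos hv, map_smul, map_sub, hs, hs, smul_eq_mul]
        field_simp
        ring
      · have hw : inner ℝ (D.w j) u = 0 := h.resolve_left hv
        unfold gj
        rw [if_neg hv, if_pos hw, map_smul, map_sub, hs, hs, smul_eq_mul]
        field_simp
        ring
    · rw [if_neg h, gj_off D h, map_zero]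
  rw [← hmom u (ne_zero_of_norm hu), star S hu]
  show momL (r • ∑ i, _) = _
  rw [map_smul, map_sum, smul_eq_mul, Finset.mul_sum, Finset.mul_sum]
  refine Finset.sum_congr rfl fun i _ => ?_
  show r * mom _ = _
  rw [mom_mapDomain, mas_gF D (hB i), hmom _ (hB i)]
  ring

theorem inner_le (τ : ι → E2) (i : ι) {u : E2} (hu : ‖u‖ = 1) (s : ℝ) :
    inner ℝ (τ i) u * s ≤ (∑ i, ‖τ i‖) * |s| := by
  have h1 : |inner ℝ (τ i) u| ≤ ∑ i, ‖τ i‖ := by
    refine (abs_real_inner_le_norm _ _).trans ?_
    rw [hu, mul_one]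
    exact Finset.single_le_sum (f := fun i => ‖τ i‖) (fun i _ => norm_nonneg _) (Finset.mem_univ i)
  calc inner ℝ (τ i) u * s ≤ |inner ℝ (τ i) u * s| := le_abs_self _
    _ = |inner ℝ (τ i) u| * |s| := abs_mul _ _
    _ ≤ _ := mul_le_mul_of_nonneg_right h1 (abs_nonneg s)

/-- a set of directions which is invariant and on which `gam` is constant and positive consists of
directions orthogonal to an edge of every parallelogram -/
theorem key [Nonempty κ] (S : Sys D r τ B) {X : Set E2} (hX : ∀ u ∈ X, ‖u‖ = 1)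
    (hB : ∀ u ∈ X, ∀ i, B i u ∈ X) {g : ℝ} (hg : 0 < g) (hγ : ∀ u ∈ X, gam D u = g) :
    ∀ u ∈ X, ∀ j, On D j u := by
  classical
  have hV0 := V0_pos D
  set Δ : X → ℝ → ℝ := fun u s => GG D u s / g - V D (s • (u : E2)) / V0 D with hΔ
  have h0 : ∀ u s, Δ u s = 0 := by
    refine uniq Δ (q := 1) (p := 1) (c := ∑ i, ‖τ i‖) (K := (V0 D / g + 1) * rho D) (R := rho D)
      S.r0 S.r1 (by rw [one_mul, pow_one]) (Finset.sum_nonneg fun i _ => norm_nonneg _)
      (mul_nonneg (by positivity) (rho_nonneg D)) (rho_nonneg D) ?_ ?_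
    · rintro ⟨u, hu⟩ s
      have hu1 := hX u hu
      have hn : ‖s • u‖ = |s| := by rw [norm_smul, hu1, mul_one, Real.norm_eq_abs]
      set b : ℝ := rho D * |s| * Real.exp (rho D * |s|) with hb
      have hb0 : 0 ≤ b := mul_nonneg (mul_nonneg (rho_nonneg D) (abs_nonneg s)) (Real.exp_pos _).le
      have hj : ∀ j, |Vj D j (s • u) - D.c j| ≤ D.c j * b := by
        intro j
        have := Vj_bound D j (s • u)
        rwa [hn] at this
      have h1 : |GG D u s - g| ≤ V0 D * b := by
        rw [← hγ u hu]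
        unfold GG gam V0
        rw [← Finset.sum_sub_distrib, Finset.sum_mul]
        refine (Finset.abs_sum_le_sum_abs _ _).trans (Finset.sum_le_sum fun j _ => ?_)
        by_cases h : On D j u
        · rw [if_pos h, if_pos h]; exact hj j
        · rw [if_neg h, if_neg h, sub_zero, abs_zero]
          exact mul_nonneg (D.c_pos j).le hb0
      have h2 : |V D (s • u) - V0 D| ≤ V0 D * b := by
        unfold V V0
        rw [← Finset.sum_sub_distrib, Finset.sum_mul]
        exact (Finset.abs_sum_le_sum_abs _ _).trans (Finset.sum_le_sum fun j _ => hj j)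
      have h3 : Δ ⟨u, hu⟩ s = (GG D u s - g) / g - (V D (s • u) - V0 D) / V0 D := by
        rw [hΔ]
        simp only
        field_simp
        ring
      rw [h3]
      calc |(GG D u s - g) / g - (V D (s • u) - V0 D) / V0 D|
          ≤ |(GG D u s - g) / g| + |(V D (s • u) - V0 D) / V0 D| := abs_sub _ _
        _ ≤ V0 D * b / g + V0 D * b / V0 D := by
            rw [abs_div, abs_div, abs_of_pos hg, abs_of_pos hV0]
            exact add_le_add (div_le_div_of_nonneg_right h1 hg.le)
              (div_le_div_of_nonneg_right h2 hV0.le)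
        _ = (V0 D / g + 1) * rho D * |s| ^ 1 * Real.exp (rho D * |s|) := by
            rw [hb]
            field_simp
    · rintro ⟨u, hu⟩ s M hM
      have hu1 := hX u hu
      rw [one_mul]
      have hM0 : 0 ≤ M := (abs_nonneg _).trans (hM ⟨u, hu⟩)
      by_cases hs : s = 0
      · subst hs
        have h1 : Δ ⟨u, hu⟩ 0 = 0 := by
          rw [hΔ]
          simp only
          rw [GG_zero, hγ u hu, zero_smul, V0_eq, div_self hg.ne', div_self hV0.ne', sub_self]
        rw [h1, abs_zero]
        positivity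
      · have h1 : Δ ⟨u, hu⟩ s = r ^ 2 * ∑ i, Real.exp (inner ℝ (τ i) u * s) *
            Δ ⟨B i u, hB u hu i⟩ (r * s) := by
          rw [hΔ]
          simp only
          rw [GG_eq S hu1 hs, V_eq S u s, mul_div_assoc, mul_div_assoc, ← mul_sub, Finset.sum_div,
            Finset.sum_div, ← Finset.sum_sub_distrib]
          congr 1
          refine Finset.sum_congr rfl fun i _ => ?_
          ring
        rw [h1, abs_mul, abs_of_pos (pow_pos S.r0 2)]
        have h2 : |∑ i, Real.exp (inner ℝ (τ i) u * s) * Δ ⟨B i u, hB u hu i⟩ (r * s)| ≤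
            ∑ _i : ι, Real.exp ((∑ i, ‖τ i‖) * |s|) * M := by
          refine (Finset.abs_sum_le_sum_abs _ _).trans (Finset.sum_le_sum fun i _ => ?_)
          rw [abs_mul, abs_of_pos (Real.exp_pos _)]
          exact mul_le_mul (Real.exp_le_exp.mpr (inner_le τ i hu1 s)) (hM _) (abs_nonneg _)
            (Real.exp_pos _).le
        refine (mul_le_mul_of_nonneg_left h2 (pow_pos S.r0 2).le).trans (le_of_eq ?_)
        rw [Finset.sum_const, Finset.card_univ, nsmul_eq_mul]
        linear_combination (Real.exp ((∑ i, ‖τ i‖) * |s|) * M) * S.card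
  intro u hu
  have hu1 := hX u hu
  have hu0 := ne_zero_of_norm hu1
  have h1 := sep ((V0 D / g - 1) • gF D u) (-cF D u) fun s => by
    have h2 := h0 ⟨u, hu⟩ s
    rw [hΔ] at h2
    simp only at h2
    have h3 := ev_gF_cF D hu0 s
    have h4 := ev_gF D hu0 s
    have h5 : V D (s • u) = V0 D / g * GG D u s := by
      field_simp at h2 ⊢
      linarith
    rw [ev_smul, ev_neg]
    rw [h5] at h3
    have h6 : ev (cF D u) s = s ^ 2 * (V0 D / g * GG D u s) - s * ev (gF D u) s := by linarith
    rw [h6, h4]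
    ring
  have h2 : cF D u = 0 := by simpa using h1.2
  intro j
  by_contra hj
  have h3 : ev (cF D u) 1 = 0 := by rw [h2, ev_zero]
  unfold cF at h3
  rw [ev_sum] at h3
  have h4 : 0 < ∑ j, ev (cj D j u) 1 := by
    refine Finset.sum_pos' (fun i _ => ?_) ⟨j, Finset.mem_univ j, ?_⟩
    · by_cases h : On D i u
      · rw [cj_on D h, ev_zero]
      · rw [ev_cj D h]
        exact mul_nonneg (by positivity) (Vj_pos D _ _).le
    · rw [ev_cj D hj]
      exact mul_pos (by norm_num) (Vj_pos D _ _)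
  exact h4.ne' h3

end Pool.Agent.RepPara
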