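import Pool.Agent.RepPara.Abs

/-!
# Reptiles made of parallelograms: the main argument
-/

namespace Pool.Agent.RepPara

open Filter Topology RepTile

/-! ### unit vectors orthogonal to a vector -/

theorem inner_two (x y : E2) : inner ℝ x y = x 0 * y 0 + x 1 * y 1 := by
  rw [PiLp.inner_apply, Fin.sum_univ_two]
  simp [mul_comm]

theorem norm_two {u : E2} (hu : ‖u‖ = 1) : u 0 ^ 2 + u 1 ^ 2 = 1 := by
  have h1 := real_inner_self_eq_norm_sq u
  rw [hu, inner_two] at h1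
  linarith

theorem perp_unique {v u u' : E2} (hv : v ≠ 0) (hu : ‖u‖ = 1) (hu' : ‖u'‖ = 1)
    (h : inner ℝ v u = 0) (h' : inner ℝ v u' = 0) : u' = u ∨ u' = -u := by
  have n1 := norm_two hu
  have n2 := norm_two hu'
  rw [inner_two] at h h'
  have hdet : u 0 * u' 1 - u 1 * u' 0 = 0 := by
    by_cases h0 : v 0 = 0
    · have h1 : v 1 ≠ 0 := by
        intro h1
        apply hv
        ext i
        fin_cases i
        · exact h0
        · exact h1
      rw [h0, zero_mul, zero_add] at h h'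
      have h2 : u 1 = 0 := (mul_eq_zero.mp h).resolve_left h1
      have h3 : u' 1 = 0 := (mul_eq_zero.mp h').resolve_left h1
      rw [h2, h3]; ring
    · have h4 : v 0 * (u 0 * u' 1 - u 1 * u' 0) = 0 := by
        linear_combination u' 1 * h - u 1 * h'
      exact (mul_eq_zero.mp h4).resolve_left h0
  have hdot : (u 0 * u' 0 + u 1 * u' 1) ^ 2 = 1 := by
    have : (u 0 * u' 0 + u 1 * u' 1) ^ 2 + (u 0 * u' 1 - u 1 * u' 0) ^ 2 =
        (u 0 ^ 2 + u 1 ^ 2) * (u' 0 ^ 2 + u' 1 ^ 2) := by ring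
    rw [hdet, n1, n2] at this
    linarith
  have hdot' : u 0 * u' 0 + u 1 * u' 1 = 1 ∨ u 0 * u' 0 + u 1 * u' 1 = -1 := by
    have h5 : (u 0 * u' 0 + u 1 * u' 1 - 1) * (u 0 * u' 0 + u 1 * u' 1 + 1) = 0 := by
      linear_combination hdot
    rcases mul_eq_zero.mp h5 with h6 | h6
    · left; linarith
    · right; linarith
  rcases hdot' with h5 | h5
  · left
    have h6 : (u' 0 - u 0) ^ 2 + (u' 1 - u 1) ^ 2 = 0 := by linear_combination n1 + n2 - 2 * h5
    have h7 : u' 0 - u 0 = 0 := by nlinarith [sq_nonneg (u' 0 - u 0), sq_nonneg (u' 1 - u 1)]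
    have h8 : u' 1 - u 1 = 0 := by nlinarith [sq_nonneg (u' 0 - u 0), sq_nonneg (u' 1 - u 1)]
    ext i
    fin_cases i
    · show u' 0 = u 0; linarith
    · show u' 1 = u 1; linarith
  · right
    have h6 : (u' 0 + u 0) ^ 2 + (u' 1 + u 1) ^ 2 = 0 := by linear_combination n1 + n2 + 2 * h5
    have h7 : u' 0 + u 0 = 0 := by nlinarith [sq_nonneg (u' 0 + u 0), sq_nonneg (u' 1 + u 1)]
    have h8 : u' 1 + u 1 = 0 := by nlinarith [sq_nonneg (u' 0 + u 0), sq_nonneg (u' 1 + u 1)]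
    ext i
    fin_cases i
    · show u' 0 = -u 0; linarith
    · show u' 1 = -u 1; linarith

theorem exists_perp (v : E2) : ∃ u : E2, ‖u‖ = 1 ∧ inner ℝ v u = 0 := by
  set e : E2 := WithLp.toLp 2 ![-(v 1), v 0] with he
  have e0 : e 0 = -(v 1) := rfl
  have e1 : e 1 = v 0 := rfl
  by_cases h : e = 0
  · have h1 : v = 0 := by
      ext i
      fin_cases i
      · show v 0 = 0
        rw [← e1, h]; rfl
      · show v 1 = 0
        have : e 1 = 0 := by rw [h]; rfl
        have h2 : e 0 = 0 := by rw [h]; rfl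
        linarith
    refine ⟨EuclideanSpace.single 0 1, by simp, ?_⟩
    rw [h1, inner_zero_left]
  · refine ⟨‖e‖⁻¹ • e, ?_, ?_⟩
    · rw [norm_smul, norm_inv, norm_norm, inv_mul_cancel₀ (norm_ne_zero_iff.mpr h)]
    · rw [inner_smul_right, inner_two, e0, e1]
      ring

variable {κ : Type*} [Fintype κ] {D : Dat κ} {ι : Type*} [Fintype ι] {r : ℝ} {τ : ι → E2}
  {B : ι → E2 ≃ₗᵢ[ℝ] E2}

/-- every parallelogram has an edge orthogonal to `u` -/
def All (D : Dat κ) (u : E2) : Prop := ∀ j, On D j u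

omit [Fintype κ] in
theorem On.neg {j : κ} {u : E2} (h : On D j u) : On D j (-u) := by
  rcases h with h | h
  · left; rw [inner_neg_right, h, neg_zero]
  · right; rw [inner_neg_right, h, neg_zero]

omit [Fintype κ] in
theorem All.neg {u : E2} (h : All D u) : All D (-u) := fun j => (h j).neg

theorem card_ne_zero (S : Sys D r τ B) : (Fintype.card ι : ℝ) ≠ 0 := by
  intro h
  have := S.card
  rw [h, zero_mul] at this
  exact zero_ne_one this

/-- averages: if `f (B i u) ≤ g` for all `i` and the average is `g`, all values are `g` -/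
theorem avg_eq (S : Sys D r τ B) {f : ι → ℝ} {g : ℝ} (hle : ∀ i, f i ≤ g)
    (h : g = r ^ 2 * ∑ i, f i) : ∀ i, f i = g := by
  have h1 : ∑ i, (g - f i) = 0 := by
    rw [Finset.sum_sub_distrib, Finset.sum_const, Finset.card_univ, nsmul_eq_mul]
    have hr : r ^ 2 ≠ 0 := (pow_pos S.r0 2).ne'
    have h2 : r ^ 2 * ((Fintype.card ι : ℝ) * g - ∑ i, f i) = 0 := by
      linear_combination g * S.card + h
    exact (mul_eq_zero.mp h2).resolve_left hr
  intro i
  have h3 := (Finset.sum_eq_zero_iff_of_nonneg fun i _ => sub_nonneg.mpr (hle i)).mp h1 i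
    (Finset.mem_univ i)
  linarith

theorem All.map (S : Sys D r τ B) {u : E2} (hu : ‖u‖ = 1) (h : All D u) (i : ι) :
    All D (B i u) := by
  have h1 := (gam_eq_iff D u).mpr h
  have h2 := gam_eq S hu
  rw [h1] at h2
  exact (gam_eq_iff D _).mp (avg_eq S (f := fun i => gam D (B i u)) (fun i => gam_le D _) h2 i)

/-- maximum of `gam` on a nonempty set of unit vectors -/
theorem exists_max {Y : Set E2} (hY : Y.Nonempty) : ∃ u ∈ Y, ∀ u' ∈ Y, gam D u' ≤ gam D u := by
  classical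
  set t : Finset (Finset κ) := Finset.univ.filter fun A =>
    ∃ u ∈ Y, A = Finset.univ.filter fun j => On D j u with ht
  have hne : t.Nonempty := by
    obtain ⟨u, hu⟩ := hY
    exact ⟨Finset.univ.filter fun j => On D j u, by
      rw [ht, Finset.mem_filter]
      exact ⟨Finset.mem_univ _, u, hu, rfl⟩⟩
  have hval : ∀ u : E2, gam D u = ∑ j ∈ Finset.univ.filter (fun j => On D j u), D.c j := by
    intro u
    unfold gam
    rw [Finset.sum_filter]
  obtain ⟨A, hA, hmax⟩ := Finset.exists_max_image t (fun A => ∑ j ∈ A, D.c j) hne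
  rw [ht, Finset.mem_filter] at hA
  obtain ⟨-, u, hu, rfl⟩ := hA
  refine ⟨u, hu, fun u' hu' => ?_⟩
  rw [hval, hval]
  exact hmax _ (by
    rw [ht, Finset.mem_filter]
    exact ⟨Finset.mem_univ _, u', hu', rfl⟩)

/-- an invariant set of unit vectors, one of which is orthogonal to an edge, contains a vector which
is orthogonal to an edge of every parallelogram -/
theorem exists_all [Nonempty κ] (S : Sys D r τ B) {Y : Set E2} (hY : ∀ u ∈ Y, ‖u‖ = 1)
    (hB : ∀ u ∈ Y, ∀ i, B i u ∈ Y) {u₀ : E2} (hu₀ : u₀ ∈ Y) (hpos : 0 < gam D u₀) :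
    ∃ u ∈ Y, All D u := by
  obtain ⟨u, hu, hmax⟩ := exists_max (D := D) ⟨u₀, hu₀⟩
  refine ⟨u, hu, ?_⟩
  refine key S (X := {x | x ∈ Y ∧ gam D x = gam D u}) (g := gam D u) (fun x hx => hY x hx.1) ?_
    (lt_of_lt_of_le hpos (hmax u₀ hu₀)) (fun x hx => hx.2) u ⟨hu, rfl⟩
  rintro x ⟨hx, hx2⟩ i
  refine ⟨hB x hx i, ?_⟩
  have h1 := gam_eq S (hY x hx)
  rw [hx2] at h1
  exact avg_eq S (f := fun i => gam D (B i x)) (fun i => hmax _ (hB x hx i)) h1 i

/-- the two directions -/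
theorem two_dirs [Nonempty κ] (S : Sys D r τ B) : ∃ u₁ u₂ : E2, ‖u₁‖ = 1 ∧ ‖u₂‖ = 1 ∧
    All D u₁ ∧ All D u₂ ∧ u₂ ≠ u₁ ∧ u₂ ≠ -u₁ := by
  obtain ⟨j⟩ := ‹Nonempty κ›
  have hne : Nonempty κ := ⟨j⟩
  -- first direction
  obtain ⟨p, hp1, hp2⟩ := exists_perp (D.v j)
  obtain ⟨u₁, hu₁, hA₁⟩ := exists_all S (Y := {x | ‖x‖ = 1}) (fun x hx => hx)
    (fun x hx i => by
      show ‖B i x‖ = 1
      rw [(B i).norm_map]; exact hx) (u₀ := p) hp1
    (lt_of_lt_of_le (D.c_pos j) (le_gam D (Or.inl hp2)))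
  have hu₁' : ‖u₁‖ = 1 := hu₁
  -- second direction
  by_contra hcon
  have honly : ∀ u : E2, ‖u‖ = 1 → All D u → u = u₁ ∨ u = -u₁ := by
    intro u hu hA
    by_contra h
    push Not at h
    exact hcon ⟨u₁, u, hu₁', hu, hA₁, hA, h.1, h.2⟩
  -- an edge of the parallelogram `j` which is not orthogonal to `u₁`
  obtain ⟨q, hq1, hq2, hq3⟩ : ∃ q : E2, ‖q‖ = 1 ∧ On D j q ∧ ¬ (q = u₁ ∨ q = -u₁) := by
    have hu0 := ne_zero_of_norm hu₁'
    rcases hA₁ j with h | h
    · obtain ⟨q, hq1, hq2⟩ := exists_perp (D.w j)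
      refine ⟨q, hq1, Or.inr hq2, ?_⟩
      rintro (h1 | h1)
      · exact hu0 (D.ind j u₁ h (by rw [← h1]; exact hq2))
      · refine hu0 (D.ind j u₁ h ?_)
        rw [h1, inner_neg_right, neg_eq_zero] at hq2
        exact hq2
    · obtain ⟨q, hq1, hq2⟩ := exists_perp (D.v j)
      refine ⟨q, hq1, Or.inl hq2, ?_⟩
      rintro (h1 | h1)
      · exact hu0 (D.ind j u₁ (by rw [← h1]; exact hq2) h)
      · refine hu0 (D.ind j u₁ ?_ h)
        rw [h1, inner_neg_right, neg_eq_zero] at hq2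
        exact hq2
  obtain ⟨u, ⟨hu1, hu2⟩, hA⟩ := exists_all S (Y := {x | ‖x‖ = 1 ∧ ¬ (x = u₁ ∨ x = -u₁)})
    (fun x hx => hx.1) (fun x hx i => by
      refine ⟨by rw [(B i).norm_map]; exact hx.1, fun h => hx.2 ?_⟩
      have h1 := honly (B i u₁) (by rw [(B i).norm_map]; exact hu₁') (hA₁.map S hu₁' i)
      have h2 : B i x = B i u₁ ∨ B i x = B i (-u₁) := by
        rw [map_neg]
        rcases h with h | h <;> rcases h1 with h1 | h1
        · left; rw [h, h1]
        · right; rw [h, h1, neg_neg]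
        · right; rw [h, h1]
        · left; rw [h, h1]
      rcases h2 with h2 | h2
      · exact Or.inl ((B i).injective h2)
      · exact Or.inr ((B i).injective h2)) (u₀ := q) ⟨hq1, hq3⟩
    (lt_of_lt_of_le (D.c_pos j) (le_gam D hq2))
  exact hu2 (honly u hu1 hA)

omit [Fintype κ] in
/-- there are only these two directions -/
theorem only_two [Nonempty κ] {u₁ u₂ u : E2} (h₁ : ‖u₁‖ = 1) (h₂ : ‖u₂‖ = 1) (h : ‖u‖ = 1)
    (hA₁ : All D u₁) (hA₂ : All D u₂) (hA : All D u) (hne : u₂ ≠ u₁) (hne' : u₂ ≠ -u₁) :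
    (u = u₁ ∨ u = -u₁) ∨ (u = u₂ ∨ u = -u₂) := by
  obtain ⟨j⟩ := ‹Nonempty κ›
  have hv : D.v j ≠ 0 := by
    intro h0
    obtain ⟨q, hq1, hq2⟩ := exists_perp (D.w j)
    exact ne_zero_of_norm hq1 (D.ind j q (by rw [h0, inner_zero_left]) hq2)
  have hw : D.w j ≠ 0 := by
    intro h0
    obtain ⟨q, hq1, hq2⟩ := exists_perp (D.v j)
    exact ne_zero_of_norm hq1 (D.ind j q hq2 (by rw [h0, inner_zero_left]))
  rcases hA₁ j with a | a <;> rcases hA₂ j with b | b <;> rcases hA j with c | c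
  · exact Or.inl (perp_unique hv h₁ h a c)
  · rcases perp_unique hv h₁ h₂ a b with d | d
    · exact absurd d hne
    · exact absurd d hne'
  · exact Or.inl (perp_unique hv h₁ h a c)
  · exact Or.inr (perp_unique hw h₂ h b c)
  · exact Or.inr (perp_unique hv h₂ h b c)
  · exact Or.inl (perp_unique hw h₁ h a c)
  · rcases perp_unique hw h₁ h₂ a b with d | d
    · exact absurd d hne
    · exact absurd d hne'
  · exact Or.inl (perp_unique hw h₁ h a c)

end Pool.Agent.RepPara
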