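import Mathlib

/-!
# Reptiles made of parallelograms: exponential sums

`ev F s = ∑ y, F y * exp (y s)` for a finitely supported `F : ℝ →₀ ℝ`.
-/

namespace Pool.Agent.RepPara

open Filter Topology

/-- the exponential sum with frequencies `y` and coefficients `F y` -/
noncomputable def ev (F : ℝ →₀ ℝ) (s : ℝ) : ℝ := F.sum fun y c => c * Real.exp (y * s)

theorem ev_zero (s : ℝ) : ev 0 s = 0 := by simp [ev]

theorem ev_add (F G : ℝ →₀ ℝ) (s : ℝ) : ev (F + G) s = ev F s + ev G s := by
  unfold ev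
  exact Finsupp.sum_add_index' (by simp) (by intros; ring)

theorem ev_single (y c s : ℝ) : ev (Finsupp.single y c) s = c * Real.exp (y * s) := by
  unfold ev
  rw [Finsupp.sum_single_index]
  ring

theorem ev_smul (a : ℝ) (F : ℝ →₀ ℝ) (s : ℝ) : ev (a • F) s = a * ev F s := by
  unfold ev
  rw [Finsupp.sum_smul_index' (by simp), Finsupp.mul_sum]
  refine Finsupp.sum_congr fun y _ => ?_
  rw [smul_eq_mul]
  ring

/-- `ev · s` as a linear map -/
noncomputable def evL (s : ℝ) : (ℝ →₀ ℝ) →ₗ[ℝ] ℝ where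
  toFun F := ev F s
  map_add' F G := ev_add F G s
  map_smul' a F := by rw [ev_smul]; rfl

theorem ev_sub (F G : ℝ →₀ ℝ) (s : ℝ) : ev (F - G) s = ev F s - ev G s := (evL s).map_sub F G

theorem ev_neg (F : ℝ →₀ ℝ) (s : ℝ) : ev (-F) s = - ev F s := (evL s).map_neg F

theorem ev_sum {ι : Type*} (t : Finset ι) (F : ι → ℝ →₀ ℝ) (s : ℝ) :
    ev (∑ i ∈ t, F i) s = ∑ i ∈ t, ev (F i) s := map_sum (evL s) F t

theorem ev_mapDomain (a b : ℝ) (F : ℝ →₀ ℝ) (s : ℝ) :
    ev (F.mapDomain fun y => a * y + b) s = Real.exp (b * s) * ev F (a * s) := by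
  unfold ev
  rw [Finsupp.sum_mapDomain_index (by simp) (by intros; ring), Finsupp.mul_sum]
  refine Finsupp.sum_congr fun y _ => ?_
  rw [show (a * y + b) * s = b * s + y * (a * s) by ring, Real.exp_add]
  ring

private theorem tendsto_aux (p q δ : ℝ) (hδ : δ < 0) :
    Tendsto (fun s : ℝ => (p * s + q) * Real.exp (δ * s)) atTop (𝓝 0) := by
  have h1 : Tendsto (fun s : ℝ => (-δ) * s) atTop atTop :=
    tendsto_id.const_mul_atTop (by linarith)
  have h2 := (Real.tendsto_pow_mul_exp_neg_atTop_nhds_zero 1).comp h1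
  have h3 := (Real.tendsto_pow_mul_exp_neg_atTop_nhds_zero 0).comp h1
  have h4 := (h2.const_mul (p / (-δ))).add (h3.const_mul q)
  simp only [mul_zero, add_zero] at h4
  refine h4.congr fun s => ?_
  simp only [Function.comp, pow_one, pow_zero, one_mul, neg_mul, neg_neg]
  have h5 : δ ≠ 0 := hδ.ne
  field_simp

/-- linear independence of the functions `exp (y s)` and `s exp (y s)` -/
theorem sep (F G : ℝ →₀ ℝ) (h : ∀ s, s * ev F s + ev G s = 0) : F = 0 ∧ G = 0 := by
  classical
  by_contra hcon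
  have hne : (F.support ∪ G.support).Nonempty := by
    by_contra h0
    rw [Finset.not_nonempty_iff_eq_empty, Finset.union_eq_empty, Finsupp.support_eq_empty,
      Finsupp.support_eq_empty] at h0
    exact hcon h0
  set A := F.support ∪ G.support with hA
  set y0 := A.max' hne with hy0
  have hy0A : y0 ∈ A := A.max'_mem hne
  have hF : ∀ s, ev F s = ∑ y ∈ A, F y * Real.exp (y * s) := by
    intro s
    unfold ev
    exact Finsupp.sum_of_support_subset _ Finset.subset_union_left _ (by simp)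
  have hG : ∀ s, ev G s = ∑ y ∈ A, G y * Real.exp (y * s) := by
    intro s
    unfold ev
    exact Finsupp.sum_of_support_subset _ Finset.subset_union_right _ (by simp)
  have h1 : ∀ s, F y0 * s + G y0 =
      - ∑ y ∈ A.erase y0, (F y * s + G y) * Real.exp ((y - y0) * s) := by
    intro s
    have h2 : ∑ y ∈ A, (F y * s + G y) * Real.exp ((y - y0) * s) = 0 := by
      have h3 : ∑ y ∈ A, (F y * s + G y) * Real.exp ((y - y0) * s) =
          Real.exp (-y0 * s) * (s * ev F s + ev G s) := by
        rw [hF, hG, Finset.mul_sum, ← Finset.sum_add_distrib, Finset.mul_sum]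
        refine Finset.sum_congr rfl fun y _ => ?_
        rw [show (y - y0) * s = -y0 * s + y * s by ring, Real.exp_add]
        ring
      rw [h3, h, mul_zero]
    rw [← Finset.add_sum_erase A _ hy0A] at h2
    have h4 : Real.exp ((y0 - y0) * s) = 1 := by rw [sub_self, zero_mul, Real.exp_zero]
    rw [h4, mul_one] at h2
    linarith
  have h2 : Tendsto (fun s : ℝ => F y0 * s + G y0) atTop (𝓝 0) := by
    have h3 : Tendsto (fun s : ℝ => - ∑ y ∈ A.erase y0, (F y * s + G y) * Real.exp ((y - y0) * s))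
        atTop (𝓝 (- ∑ y ∈ A.erase y0, 0)) := by
      refine (tendsto_finsetSum _ fun y hy => ?_).neg
      refine tendsto_aux _ _ _ ?_
      have h4 : y ≤ y0 := A.le_max' y (Finset.mem_of_mem_erase hy)
      have h5 : y ≠ y0 := Finset.ne_of_mem_erase hy
      exact sub_neg.mpr (lt_of_le_of_ne h4 h5)
    simp only [Finset.sum_const_zero, neg_zero] at h3
    exact h3.congr fun s => (h1 s).symm
  have h3 : F y0 = 0 := by
    have h4 : Tendsto (fun s : ℝ => F y0 * (s + 1) + G y0) atTop (𝓝 0) :=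
      h2.comp (tendsto_atTop_add_const_right _ _ tendsto_id)
    have h5 := h4.sub h2
    have h6 : (fun s : ℝ => (F y0 * (s + 1) + G y0) - (F y0 * s + G y0)) = fun _ => F y0 := by
      funext s; ring
    rw [h6, sub_zero] at h5
    exact tendsto_nhds_unique tendsto_const_nhds h5
  have h4 : G y0 = 0 := by
    have h6 : (fun s : ℝ => F y0 * s + G y0) = fun _ => G y0 := by
      funext s; rw [h3]; ring
    rw [h6] at h2
    exact tendsto_nhds_unique tendsto_const_nhds h2
  rw [hA, Finset.mem_union, Finsupp.mem_support_iff, Finsupp.mem_support_iff] at hy0A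
  rcases hy0A with h5 | h5
  · exact h5 h3
  · exact h5 h4

theorem ev_inj {F G : ℝ →₀ ℝ} (h : ∀ s, ev F s = ev G s) : F = G := by
  have := (sep 0 (F - G) fun s => by rw [ev_zero, mul_zero, zero_add, ev_sub, h, sub_self]).2
  exact sub_eq_zero.mp this

/-! ### moments -/

/-- the first moment -/
noncomputable def mom (F : ℝ →₀ ℝ) : ℝ := F.sum fun y c => c * y

/-- the total mass -/
noncomputable def mas (F : ℝ →₀ ℝ) : ℝ := F.sum fun _ c => c

theorem ev_at_zero (F : ℝ →₀ ℝ) : ev F 0 = mas F := by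
  unfold ev mas
  refine Finsupp.sum_congr fun y _ => ?_
  rw [mul_zero, Real.exp_zero, mul_one]

/-- `mom` as a linear map -/
noncomputable def momL : (ℝ →₀ ℝ) →ₗ[ℝ] ℝ where
  toFun F := mom F
  map_add' F G := by
    unfold mom
    exact Finsupp.sum_add_index' (by simp) (by intros; ring)
  map_smul' a F := by
    unfold mom
    rw [Finsupp.sum_smul_index' (by simp), RingHom.id_apply, smul_eq_mul, Finsupp.mul_sum]
    refine Finsupp.sum_congr fun y _ => ?_
    rw [smul_eq_mul]
    ring

theorem mom_mapDomain (a b : ℝ) (F : ℝ →₀ ℝ) :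
    mom (F.mapDomain fun y => a * y + b) = a * mom F + b * mas F := by
  unfold mom mas
  rw [Finsupp.sum_mapDomain_index (by simp) (by intros; ring), Finsupp.mul_sum, Finsupp.mul_sum,
    ← Finsupp.sum_add]
  refine Finsupp.sum_congr fun y _ => ?_
  ring

theorem exp_sub_le (x : ℝ) : |Real.exp x - 1 - x| ≤ x ^ 2 * Real.exp |x| := by
  have h1 : 0 ≤ Real.exp x - 1 - x := by
    have := Real.add_one_le_exp x
    linarith
  rw [abs_of_nonneg h1]
  -- `exp x - 1 - x ≤ x (exp x - 1) ≤ x² exp |x|`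
  have h2 := Real.add_one_le_exp (-x)
  have h3 : Real.exp x * Real.exp (-x) = 1 := by rw [← Real.exp_add, add_neg_cancel, Real.exp_zero]
  have hpos := Real.exp_pos x
  have h4 : Real.exp x - 1 ≤ x * Real.exp x := by nlinarith
  have h5 : Real.exp x - 1 - x ≤ x * (Real.exp x - 1) := by linarith
  refine h5.trans ?_
  rcases le_total 0 x with hx | hx
  · rw [abs_of_nonneg hx]
    nlinarith
  · have h6 : x ≤ Real.exp x - 1 := by linarith
    have h7 : 1 ≤ Real.exp |x| := Real.one_le_exp (abs_nonneg x)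
    have h8 : x * (Real.exp x - 1) ≤ x * x := mul_le_mul_of_nonpos_left h6 hx
    nlinarith [sq_nonneg x]

/-- an exponential sum with vanishing mass and first moment is `O(s²)` -/
theorem ev_bound {F : ℝ →₀ ℝ} (h0 : mas F = 0) (h1 : mom F = 0) :
    ∃ K R : ℝ, 0 ≤ K ∧ 0 ≤ R ∧ ∀ s, |ev F s| ≤ K * |s| ^ 2 * Real.exp (R * |s|) := by
  classical
  refine ⟨∑ y ∈ F.support, |F y| * y ^ 2, ∑ y ∈ F.support, |y|,
    Finset.sum_nonneg fun y _ => by positivity, Finset.sum_nonneg fun y _ => abs_nonneg _, ?_⟩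
  intro s
  have h2 : ev F s = ∑ y ∈ F.support, F y * (Real.exp (y * s) - 1 - y * s) := by
    have e1 : ∑ y ∈ F.support, F y = 0 := h0
    have e2 : ∑ y ∈ F.support, F y * y = 0 := h1
    have e3 : ∑ y ∈ F.support, F y * (Real.exp (y * s) - 1 - y * s) =
        ∑ y ∈ F.support, F y * Real.exp (y * s) - ∑ y ∈ F.support, F y -
          (∑ y ∈ F.support, F y * y) * s := by
      rw [Finset.sum_mul, ← Finset.sum_sub_distrib, ← Finset.sum_sub_distrib]
      refine Finset.sum_congr rfl fun y _ => ?_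
      ring
    rw [e3, e1, e2]
    simp only [sub_zero, zero_mul]
    rfl
  rw [h2, Finset.sum_mul, Finset.sum_mul]
  refine (Finset.abs_sum_le_sum_abs _ _).trans (Finset.sum_le_sum fun y hy => ?_)
  rw [abs_mul]
  have h3 : |y * s| ≤ (∑ y ∈ F.support, |y|) * |s| := by
    rw [abs_mul]
    exact mul_le_mul_of_nonneg_right
      (Finset.single_le_sum (f := fun y => |y|) (fun y _ => abs_nonneg y) hy) (abs_nonneg s)
  calc |F y| * |Real.exp (y * s) - 1 - y * s|
      ≤ |F y| * ((y * s) ^ 2 * Real.exp |y * s|) :=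
        mul_le_mul_of_nonneg_left (exp_sub_le _) (abs_nonneg _)
    _ ≤ |F y| * ((y * s) ^ 2 * Real.exp ((∑ y ∈ F.support, |y|) * |s|)) := by
        refine mul_le_mul_of_nonneg_left (mul_le_mul_of_nonneg_left (Real.exp_le_exp.mpr h3)
          (sq_nonneg _)) (abs_nonneg _)
    _ = |F y| * y ^ 2 * |s| ^ 2 * Real.exp ((∑ y ∈ F.support, |y|) * |s|) := by
        rw [sq_abs]
        ring

/-- uniqueness: a family which reproduces itself under the scaling by `r` and which is small at `0`
vanishes -/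
theorem uniq {U : Type*} (Δ : U → ℝ → ℝ) {r q c K R : ℝ} {p : ℕ} (hr0 : 0 < r) (hr1 : r < 1)
    (hq : q * r ^ p ≤ r) (hc : 0 ≤ c) (hK : 0 ≤ K) (hR : 0 ≤ R)
    (hb : ∀ u s, |Δ u s| ≤ K * |s| ^ p * Real.exp (R * |s|))
    (h : ∀ u s M, (∀ u', |Δ u' (r * s)| ≤ M) → |Δ u s| ≤ q * (Real.exp (c * |s|) * M)) :
    ∀ u s, Δ u s = 0 := by
  set C : ℝ := R + c / (1 - r) with hC
  have h1r : 0 < 1 - r := by linarith
  have hC0 : 0 ≤ c / (1 - r) := by positivity
  have hRC : R ≤ C := by linarith
  have hcC : c + r * C ≤ C := by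
    have e1 : (1 - r) * (c / (1 - r)) = c := by field_simp
    have e2 : c + r * C = r * R + ((1 - r) * (c / (1 - r)) + r * (c / (1 - r))) := by
      rw [e1, hC]; ring
    rw [e2]
    nlinarith
  have key : ∀ N : ℕ, ∀ u s, |Δ u s| ≤ r ^ N * (K * |s| ^ p * Real.exp (C * |s|)) := by
    intro N
    induction N with
    | zero =>
      intro u s
      rw [pow_zero, one_mul]
      refine (hb u s).trans (mul_le_mul_of_nonneg_left (Real.exp_le_exp.mpr ?_) (by positivity))
      exact mul_le_mul_of_nonneg_right hRC (abs_nonneg s)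
    | succ N ih =>
      intro u s
      refine (h u s _ fun u' => ih u' (r * s)).trans ?_
      rw [abs_mul, abs_of_pos hr0]
      have e1 : q * (Real.exp (c * |s|) * (r ^ N * (K * (r * |s|) ^ p *
          Real.exp (C * (r * |s|))))) =
          (q * r ^ p) * r ^ N * (K * |s| ^ p) * Real.exp (c * |s| + C * (r * |s|)) := by
        rw [mul_pow, Real.exp_add]
        ring
      rw [e1]
      have e2 : Real.exp (c * |s| + C * (r * |s|)) ≤ Real.exp (C * |s|) := by
        refine Real.exp_le_exp.mpr ?_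
        have := mul_le_mul_of_nonneg_right hcC (abs_nonneg s)
        linarith
      calc (q * r ^ p) * r ^ N * (K * |s| ^ p) * Real.exp (c * |s| + C * (r * |s|))
          ≤ r * r ^ N * (K * |s| ^ p) * Real.exp (C * |s|) := by
            refine mul_le_mul ?_ e2 (Real.exp_pos _).le (by positivity)
            refine mul_le_mul_of_nonneg_right ?_ (by positivity)
            exact mul_le_mul_of_nonneg_right hq (by positivity)
        _ = r ^ (N + 1) * (K * |s| ^ p * Real.exp (C * |s|)) := by ring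
  intro u s
  have h2 : Tendsto (fun N : ℕ => r ^ N * (K * |s| ^ p * Real.exp (C * |s|))) atTop (𝓝 0) := by
    have := (tendsto_pow_atTop_nhds_zero_of_lt_one hr0.le hr1).mul_const
      (K * |s| ^ p * Real.exp (C * |s|))
    rwa [zero_mul] at this
  have h3 : |Δ u s| ≤ 0 := ge_of_tendsto' h2 fun N => key N u s
  exact abs_eq_zero.mp (le_antisymm h3 (abs_nonneg _))

/-! ### the functional -/

/-- an additive functional which anticommutes with the multiplication by `√n`, `n` not a square -/
theorem exists_phi {n : ℕ} (hn : ¬ IsSquare n) {x : ℝ} (hx : x ≠ 0) :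
    ∃ φ : ℝ →+ ℝ, (∀ y, φ (Real.sqrt n * y) = - (Real.sqrt n * φ y)) ∧ φ x ≠ 0 := by
  obtain ⟨ψ, hψ⟩ : ∃ ψ : Module.Dual ℚ ℝ, ψ x ≠ 0 := by
    by_contra hcon
    push Not at hcon
    exact hx ((Module.forall_dual_apply_eq_zero_iff ℚ x).mp hcon)
  have hn0 : (0 : ℝ) ≤ n := Nat.cast_nonneg n
  have hss : Real.sqrt n * Real.sqrt n = n := Real.mul_self_sqrt hn0
  refine ⟨{ toFun := fun y => (ψ (Real.sqrt n * y) : ℝ) - Real.sqrt n * (ψ y : ℝ)
            map_zero' := by simp
            map_add' := fun a b => by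
              simp only [mul_add, map_add]
              push_cast
              ring }, ?_, ?_⟩
  · intro y
    show (ψ (Real.sqrt n * (Real.sqrt n * y)) : ℝ) - Real.sqrt n * (ψ (Real.sqrt n * y) : ℝ) =
      - (Real.sqrt n * ((ψ (Real.sqrt n * y) : ℝ) - Real.sqrt n * (ψ y : ℝ)))
    have h1 : Real.sqrt n * (Real.sqrt n * y) = (n : ℚ) • y := by
      rw [← mul_assoc, hss]
      simp [Rat.smul_def]
    rw [h1, map_smul, smul_eq_mul]
    push_cast
    linear_combination (ψ y : ℝ) * (-hss)
  · show (ψ (Real.sqrt n * x) : ℝ) - Real.sqrt n * (ψ x : ℝ) ≠ 0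
    intro h
    have hirr : Irrational (Real.sqrt n) := irrational_sqrt_natCast_iff.mpr hn
    apply hirr
    have hψ' : (ψ x : ℝ) ≠ 0 := by exact_mod_cast hψ
    refine ⟨ψ (Real.sqrt n * x) / ψ x, ?_⟩
    push_cast
    rw [div_eq_iff hψ']
    linarith

end Pool.Agent.RepPara
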