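import Pool.Agent.RepPara.Nonsq
import Pool.Agent.RepTile.Box

/-!
# Reptiles made of parallelograms: Laplace transforms
-/

namespace Pool.Agent.RepPara

open Filter Topology RepTile MeasureTheory
open scoped Pointwise

/-- Laplace transform of the indicator function of `S` -/
noncomputable def LT (S : Set E2) (ξ : E2) : ℝ := ∫ x in S, Real.exp (inner ℝ x ξ)

theorem LT_add (S : Set E2) (c ξ : E2) :
    LT ((fun x => x + c) '' S) ξ = Real.exp (inner ℝ c ξ) * LT S ξ := by
  unfold LT
  rw [(measurePreserving_add_right volume c).setIntegral_image_emb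
    (measurableEmbedding_addRight c), ← integral_const_mul]
  refine integral_congr_ae (Eventually.of_forall fun x => ?_)
  show Real.exp (inner ℝ (x + c) ξ) = Real.exp (inner ℝ c ξ) * Real.exp (inner ℝ x ξ)
  rw [inner_add_left, ← Real.exp_add, add_comm]

theorem LT_lin (S : Set E2) (L : E2 ≃ₗᵢ[ℝ] E2) (ξ : E2) : LT (L '' S) ξ = LT S (L.symm ξ) := by
  unfold LT
  rw [L.measurePreserving.setIntegral_image_emb L.toHomeomorph.measurableEmbedding]
  refine integral_congr_ae (Eventually.of_forall fun x => ?_)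
  show Real.exp (inner ℝ (L x) ξ) = Real.exp (inner ℝ x (L.symm ξ))
  rw [← L.inner_map_map x (L.symm ξ), L.apply_symm_apply]

theorem LT_smul (S : Set E2) {r : ℝ} (hr : 0 < r) (ξ : E2) :
    LT ((fun x => r • x) '' S) ξ = r ^ 2 * LT S (r • ξ) := by
  have h := Measure.setIntegral_comp_smul_of_pos (volume : Measure E2)
    (fun x : E2 => Real.exp (inner ℝ x ξ)) S hr
  have hd : Module.finrank ℝ E2 = 2 := finrank_euclideanSpace_fin
  rw [hd] at h
  have h2 : LT S (r • ξ) = ∫ x in S, Real.exp (inner ℝ (r • x) ξ) := by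
    unfold LT
    refine integral_congr_ae (Eventually.of_forall fun x => ?_)
    show Real.exp (inner ℝ x (r • ξ)) = Real.exp (inner ℝ (r • x) ξ)
    rw [inner_smul_right, inner_smul_left]
    simp
  rw [h2, h]
  have h3 : (fun x : E2 => r • x) '' S = r • S := rfl
  rw [h3]
  show LT (r • S) ξ = r ^ 2 * ((r ^ 2)⁻¹ • LT (r • S) ξ)
  rw [smul_eq_mul, ← mul_assoc, mul_inv_cancel₀ (pow_ne_zero 2 hr.ne'), one_mul]

theorem LT_sim (S : Set E2) {r : ℝ} (hr : 0 < r) (g : E2 ≃ᵢ E2) (ξ : E2) :
    LT ((sim r g) '' S) ξ = r ^ 2 * (Real.exp (inner ℝ (g 0) (r • ξ)) *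
      LT S (g.toRealAffineIsometryEquiv.linearIsometryEquiv.symm (r • ξ))) := by
  set L := g.toRealAffineIsometryEquiv.linearIsometryEquiv with hL
  have hg : ∀ x, g x = L x + g 0 := by
    intro x
    have := g.toRealAffineIsometryEquiv.map_vadd 0 x
    have e : g (x +ᵥ (0 : E2)) = L x + g 0 := this
    rw [vadd_eq_add, add_zero] at e
    exact e
  have h1 : (sim r g) '' S = (fun x => r • x) '' ((fun x => x + g 0) '' (L '' S)) := by
    rw [Set.image_image, Set.image_image]
    refine Set.image_congr fun x _ => ?_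
    show r • g x = r • (L x + g 0)
    rw [hg]
  rw [h1, LT_smul _ hr, LT_add, LT_lin]

theorem int_ker {S : Set E2} (hS : IsCompact S) (ξ : E2) :
    IntegrableOn (fun x : E2 => Real.exp (inner ℝ x ξ)) S :=
  (by fun_prop : Continuous fun x : E2 => Real.exp (inner ℝ x ξ)).continuousOn.integrableOn_compact hS

/-- additivity over an essentially disjoint union -/
theorem int_sum {ι : Type*} [Fintype ι] {T : Set E2} {P : ι → Set E2}
    (hT : volume T ≠ ⊤) (hTm : MeasurableSet T) (hPm : ∀ i, MeasurableSet (P i))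
    (hU : T = ⋃ i, P i) (hV : ∑ i, volume (P i) = volume T) {f : E2 → ℝ} (hf : IntegrableOn f T) :
    ∫ x in T, f x = ∑ i, ∫ x in P i, f x := by
  classical
  have hPT : ∀ i, P i ⊆ T := fun i => by rw [hU]; exact Set.subset_iUnion P i
  have h1 : (T.indicator (fun _ => (1 : ENNReal))) =ᵐ[volume]
      (fun x => ∑ i, (P i).indicator (fun _ => (1 : ENNReal)) x) := by
    refine ae_eq_of_ae_le_of_lintegral_le ?_ ?_ ?_ ?_
    · refine Eventually.of_forall fun x => ?_
      by_cases hx : x ∈ T
      · have hx' := hx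
        rw [hU, Set.mem_iUnion] at hx'
        obtain ⟨i, hi⟩ := hx'
        show T.indicator (fun _ => (1 : ENNReal)) x ≤ ∑ i, (P i).indicator (fun _ => (1 : ENNReal)) x
        rw [Set.indicator_of_mem hx]
        calc (1 : ENNReal) = (P i).indicator (fun _ => (1 : ENNReal)) x := by
              rw [Set.indicator_of_mem hi]
          _ ≤ ∑ i, (P i).indicator (fun _ => (1 : ENNReal)) x :=
              Finset.single_le_sum (f := fun i => (P i).indicator (fun _ => (1 : ENNReal)) x)
                (fun _ _ => zero_le) (Finset.mem_univ i)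
      · show T.indicator (fun _ => (1 : ENNReal)) x ≤ _
        rw [Set.indicator_of_notMem hx]
        exact zero_le
    · rw [lintegral_indicator hTm]
      simpa using hT
    · refine Finset.aemeasurable_fun_sum _ fun i _ => ?_
      exact (measurable_const.indicator (hPm i)).aemeasurable
    · rw [lintegral_finsetSum _ fun i _ => measurable_const.indicator (hPm i)]
      rw [lintegral_indicator hTm]
      have : ∀ i, ∫⁻ x, (P i).indicator (fun _ => (1 : ENNReal)) x = volume (P i) := by
        intro i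
        rw [lintegral_indicator (hPm i)]
        simp
      simp only [this, hV]
      simp
  have h2 : ∀ᵐ x : E2, T.indicator f x = ∑ i, (P i).indicator f x := by
    filter_upwards [h1] with x hx
    by_cases hxT : x ∈ T
    · rw [Set.indicator_of_mem hxT] at hx ⊢
      have hcard : (Finset.univ.filter fun i => x ∈ P i).card = 1 := by
        have h3 : ∑ i, (P i).indicator (fun _ => (1 : ENNReal)) x =
            ((Finset.univ.filter fun i => x ∈ P i).card : ENNReal) := by
          rw [Finset.card_filter]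
          push_cast
          exact Finset.sum_congr rfl fun i _ => by
            by_cases h : x ∈ P i <;> simp [h]
        rw [h3] at hx
        exact_mod_cast hx.symm
      obtain ⟨i, hi⟩ := Finset.card_eq_one.mp hcard
      have hiP : x ∈ P i := by
        have : i ∈ Finset.univ.filter fun i => x ∈ P i := by rw [hi]; exact Finset.mem_singleton_self i
        exact (Finset.mem_filter.mp this).2
      rw [Finset.sum_eq_single i]
      · rw [Set.indicator_of_mem hiP]
      · intro j _ hj
        rw [Set.indicator_of_notMem]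
        intro hjP
        have : j ∈ Finset.univ.filter fun i => x ∈ P i :=
          Finset.mem_filter.mpr ⟨Finset.mem_univ j, hjP⟩
        rw [hi, Finset.mem_singleton] at this
        exact hj this
      · intro h; exact absurd (Finset.mem_univ i) h
    · rw [Set.indicator_of_notMem hxT]
      refine (Finset.sum_eq_zero fun i _ => ?_).symm
      exact Set.indicator_of_notMem (fun h => hxT (hPT i h)) _
  rw [← integral_indicator hTm, integral_congr_ae h2, integral_finsetSum]
  · exact Finset.sum_congr rfl fun i _ => integral_indicator (hPm i)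
  · intro i _
    rw [integrable_indicator_iff (hPm i)]
    exact hf.mono_set (hPT i)

/-- the functional equation of a dissection -/
theorem sys_of_dissection {κ : Type*} [Fintype κ] {D : Dat κ} {n : ℕ} (hn : 2 ≤ n) {T : Set E2}
    (hT : IsTile T) (hV : ∀ ξ, V D ξ = LT T ξ) {P : Fin n → Set E2} (hP : IsDissection T P) :
    ∃ (r : ℝ) (τ : Fin n → E2) (B : Fin n → E2 ≃ₗᵢ[ℝ] E2), Sys D r τ B := by
  have hP' := hP
  obtain ⟨h1, h2, h3, h4⟩ := hP'
  choose ρ hρ0 g hg using h1
  have hn0 : 0 < n := by omega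
  have hnR : (2 : ℝ) ≤ n := by exact_mod_cast hn
  set i₀ : Fin n := ⟨0, hn0⟩ with hi₀
  have hcard : ∀ i, (n : ℝ) * ρ i ^ 2 = 1 := fun i => (dissection_facts hT hP i (hρ0 i) (hg i)).1
  have hρ : ∀ i, ρ i = ρ i₀ := by
    intro i
    have e1 : (n : ℝ) * ρ i ^ 2 = n * ρ i₀ ^ 2 := by rw [hcard, hcard]
    have e2 : ρ i ^ 2 = ρ i₀ ^ 2 := mul_left_cancel₀ (by linarith : (0 : ℝ) < n).ne' e1
    exact (pow_left_inj₀ (hρ0 i).le (hρ0 i₀).le two_ne_zero).mp e2
  set r := ρ i₀ with hr
  have hr0 : 0 < r := hρ0 i₀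
  have hcr := hcard i₀
  rw [← hr] at hcr
  have hr1 : r < 1 := by
    by_contra h
    push Not at h
    nlinarith
  have hvol : ∀ i, volume (P i) = ENNReal.ofReal (r ^ 2) * volume T := by
    intro i
    rw [hg i, volume_sim T (hρ0 i), hρ i]
  have hTfin := hT.volume_ne_top
  have hsum : ∑ i, volume (P i) = volume T := by
    simp only [hvol, Finset.sum_const, Finset.card_univ, Fintype.card_fin, nsmul_eq_mul]
    rw [← mul_assoc, ← ENNReal.ofReal_natCast, ← ENNReal.ofReal_mul (Nat.cast_nonneg n), hcr,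
      ENNReal.ofReal_one, one_mul]
  have hPm : ∀ i, MeasurableSet (P i) := by
    intro i
    rw [hg i]
    have e : sim (ρ i) (g i) '' T = (Homeomorph.smulOfNeZero (ρ i) (hρ0 i).ne' : E2 ≃ₜ E2) ''
        ((g i) '' T) := by
      rw [Set.image_image]
      rfl
    rw [e]
    exact ((Homeomorph.smulOfNeZero (ρ i) (hρ0 i).ne' : E2 ≃ₜ E2).isClosedMap _
      ((g i).toHomeomorph.isClosedMap _ hT.2.2.1)).measurableSet
  refine ⟨r, fun i => r • g i 0, fun i => (g i).toRealAffineIsometryEquiv.linearIsometryEquiv.symm,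
    hr0, hr1, by rw [Fintype.card_fin]; exact hcr, ?_⟩
  intro ξ
  rw [hV ξ]
  have hadd : LT T ξ = ∑ i, LT (P i) ξ :=
    int_sum hTfin hT.2.2.1.measurableSet hPm h3 hsum (int_ker hT.isCompact ξ)
  rw [hadd, Finset.mul_sum]
  refine Finset.sum_congr rfl fun i _ => ?_
  rw [hg i, LT_sim T (hρ0 i), hρ i, ← hV, map_smul, inner_smul_right, inner_smul_left]
  simp

/-! ### parallelograms -/

/-- the parallelogram with the corner `a` and the edges `v`, `w` -/
def pgram (a v w : E2) : Set E2 :=
  {x | ∃ s t : ℝ, s ∈ Set.Icc (0 : ℝ) 1 ∧ t ∈ Set.Icc (0 : ℝ) 1 ∧ x = a + s • v + t • w}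

theorem box_int (p q : ℝ) : ∫ x in box 1 1, Real.exp (x 0 * p + x 1 * q) = EE p * EE q := by
  have hm : MeasurableSet (box 1 1) := (isClosed_box 1 1).measurableSet
  rw [← integral_indicator hm, ← (PiLp.volume_preserving_toLp (Fin 2)).integral_comp
    (MeasurableEquiv.toLp 2 (Fin 2 → ℝ)).measurableEmbedding]
  have h1 : ∀ x : Fin 2 → ℝ, (box 1 1).indicator (fun x : E2 => Real.exp (x 0 * p + x 1 * q))
      (WithLp.toLp 2 x) = ∏ i : Fin 2, (Set.Icc (0 : ℝ) 1).indicator
        (fun t => Real.exp (![p, q] i * t)) (x i) := by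
    intro x
    rw [Fin.prod_univ_two]
    by_cases h0 : x 0 ∈ Set.Icc (0 : ℝ) 1
    · by_cases h1 : x 1 ∈ Set.Icc (0 : ℝ) 1
      · have h2 : (WithLp.toLp 2 x : E2) ∈ box 1 1 := ⟨⟨h0.1, h0.2⟩, h1.1, h1.2⟩
        rw [Set.indicator_of_mem h2, Set.indicator_of_mem h0, Set.indicator_of_mem h1,
          ← Real.exp_add]
        congr 1
        show x 0 * p + x 1 * q = p * x 0 + q * x 1
        ring
      · have h2 : (WithLp.toLp 2 x : E2) ∉ box 1 1 := fun h => h1 ⟨h.2.1, h.2.2⟩
        rw [Set.indicator_of_notMem h2, Set.indicator_of_notMem h1, mul_zero]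
    · have h2 : (WithLp.toLp 2 x : E2) ∉ box 1 1 := fun h => h0 ⟨h.1.1, h.1.2⟩
      rw [Set.indicator_of_notMem h2, Set.indicator_of_notMem h0, zero_mul]
  rw [integral_congr_ae (Eventually.of_forall h1),
    integral_fintype_prod_volume_eq_prod (fun (i : Fin 2) (t : ℝ) =>
      (Set.Icc (0 : ℝ) 1).indicator (fun t => Real.exp (![p, q] i * t)) t), Fin.prod_univ_two]
  have h2 : ∀ z : ℝ, ∫ t : ℝ, (Set.Icc (0 : ℝ) 1).indicator (fun t => Real.exp (z * t)) t = EE z := by
    intro z
    rw [integral_indicator measurableSet_Icc, integral_Icc_eq_integral_Ioc,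
      ← intervalIntegral.integral_of_le zero_le_one]
    rfl
  exact congrArg₂ (· * ·) (h2 p) (h2 q)

/-- the linear part -/
noncomputable def lin (v w : E2) : E2 →L[ℝ] E2 :=
  (EuclideanSpace.proj (0 : Fin 2) : E2 →L[ℝ] ℝ).smulRight v +
    (EuclideanSpace.proj (1 : Fin 2) : E2 →L[ℝ] ℝ).smulRight w

theorem lin_apply (v w x : E2) : lin v w x = x 0 • v + x 1 • w := rfl

theorem pgram_eq (a v w : E2) : pgram a v w = (fun x => a + lin v w x) '' box 1 1 := by
  ext x
  constructor
  · rintro ⟨s, t, hs, ht, rfl⟩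
    refine ⟨vec s t, ⟨⟨hs.1, hs.2⟩, ht.1, ht.2⟩, ?_⟩
    show a + (s • v + t • w) = _
    rw [add_assoc]
  · rintro ⟨y, ⟨⟨h1, h2⟩, h3, h4⟩, rfl⟩
    refine ⟨y 0, y 1, ⟨h1, h2⟩, ⟨h3, h4⟩, ?_⟩
    show a + (y 0 • v + y 1 • w) = _
    rw [add_assoc]

theorem pgram_convex (a v w : E2) : Convex ℝ (pgram a v w) := by
  have h1 := ((convex_box 1 1).linear_image (lin v w : E2 →ₗ[ℝ] E2)).translate a
  rw [Set.image_image] at h1
  rw [pgram_eq]
  exact h1

theorem pgram_compact (a v w : E2) : IsCompact (pgram a v w) := by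
  rw [pgram_eq]
  exact (isTile_box one_pos one_pos).isCompact.image (by fun_prop)

theorem pgram_interior (a v w : E2) : volume (interior (pgram a v w)) = volume (pgram a v w) := by
  refine le_antisymm (measure_mono interior_subset) ?_
  have h1 : pgram a v w ⊆ interior (pgram a v w) ∪ frontier (pgram a v w) := by
    intro x hx
    rw [← closure_eq_interior_union_frontier]
    exact subset_closure hx
  calc volume (pgram a v w) ≤ volume (interior (pgram a v w)) + volume (frontier (pgram a v w)) :=
        (measure_mono h1).trans (measure_union_le _ _)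
    _ = volume (interior (pgram a v w)) := by
        rw [(pgram_convex a v w).addHaar_frontier volume, add_zero]

theorem lin_inj {v w : E2} (h : LinearIndependent ℝ ![v, w]) : Function.Injective (lin v w) := by
  rw [injective_iff_map_eq_zero]
  intro x hx
  rw [lin_apply] at hx
  obtain ⟨h0, h1⟩ := LinearIndependent.pair_iff.mp h _ _ hx
  ext i
  fin_cases i
  · exact h0
  · exact h1

theorem lin_det {v w : E2} (h : LinearIndependent ℝ ![v, w]) : 0 < |(lin v w).det| := by
  rw [abs_pos]
  intro h0
  have h1 := LinearMap.bot_lt_ker_of_det_eq_zero (f := (lin v w : E2 →ₗ[ℝ] E2)) h0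
  have h2 : LinearMap.ker (lin v w : E2 →ₗ[ℝ] E2) = ⊥ := LinearMap.ker_eq_bot.mpr (lin_inj h)
  rw [h2] at h1
  exact lt_irrefl _ h1

theorem lin_perp {v w : E2} (h : LinearIndependent ℝ ![v, w]) {u : E2} (hv : inner ℝ v u = 0)
    (hw : inner ℝ w u = 0) : u = 0 := by
  have h1 : Function.Surjective (lin v w : E2 →ₗ[ℝ] E2) :=
    LinearMap.injective_iff_surjective.mp (lin_inj h)
  obtain ⟨x, hx⟩ := h1 u
  have hx' : u = x 0 • v + x 1 • w := hx.symm
  have h2 : inner ℝ u u = 0 := by
    conv_lhs => rw [hx']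
    rw [inner_add_left, inner_smul_left, inner_smul_left, ← hx', hv, hw]
    simp
  exact inner_self_eq_zero.mp h2

theorem LT_pgram {v w : E2} (h : LinearIndependent ℝ ![v, w]) (a ξ : E2) :
    LT (pgram a v w) ξ = |(lin v w).det| *
      (Real.exp (inner ℝ a ξ) * (EE (inner ℝ v ξ) * EE (inner ℝ w ξ))) := by
  unfold LT
  rw [pgram_eq, integral_image_eq_integral_abs_det_fderiv_smul volume
    (isClosed_box 1 1).measurableSet (f' := fun _ => lin v w)
    (fun x _ => ((lin v w).hasFDerivAt.const_add a).hasFDerivWithinAt)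
    (fun x _ y _ hxy => lin_inj h (add_left_cancel hxy))]
  rw [integral_smul, smul_eq_mul]
  congr 1
  rw [← box_int, ← integral_const_mul]
  refine integral_congr_ae (Eventually.of_forall fun x => ?_)
  show Real.exp (inner ℝ (a + lin v w x) ξ) = Real.exp (inner ℝ a ξ) *
    Real.exp (x 0 * inner ℝ v ξ + x 1 * inner ℝ w ξ)
  rw [← Real.exp_add, inner_add_left, lin_apply, inner_add_left, inner_smul_left, inner_smul_left]
  simp

/-- data of a finite family of parallelograms -/
noncomputable def mkDat {k : ℕ} (a v w : Fin k → E2) (h : ∀ j, LinearIndependent ℝ ![v j, w j]) :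
    Dat (Fin k) where
  c j := |(lin (v j) (w j)).det|
  a := a
  v := v
  w := w
  c_pos j := lin_det (h j)
  ind j _ := lin_perp (h j)

theorem LT_union {k : ℕ} {a v w : Fin k → E2} (h : ∀ j, LinearIndependent ℝ ![v j, w j]) {T : Set E2}
    (hT : IsTile T) (hU : T = ⋃ j, pgram (a j) (v j) (w j))
    (hd : Pairwise fun i j => Disjoint (interior (pgram (a i) (v i) (w i)))
      (interior (pgram (a j) (v j) (w j)))) (ξ : E2) :
    V (mkDat a v w h) ξ = LT T ξ := by
  have hfin := hT.volume_ne_top
  have hsum : ∑ j, volume (pgram (a j) (v j) (w j)) = volume T := by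
    refine le_antisymm ?_ ?_
    · have e1 : ∑ j, volume (interior (pgram (a j) (v j) (w j))) =
          volume (⋃ j, interior (pgram (a j) (v j) (w j))) := by
        rw [measure_iUnion (fun i j hij => hd hij) fun i => isOpen_interior.measurableSet,
          tsum_fintype]
      have e2 : ∑ j, volume (pgram (a j) (v j) (w j)) =
          ∑ j, volume (interior (pgram (a j) (v j) (w j))) :=
        Finset.sum_congr rfl fun j _ => (pgram_interior _ _ _).symm
      rw [e2, e1]
      refine measure_mono (Set.iUnion_subset fun j => interior_subset.trans ?_)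
      rw [hU]
      exact Set.subset_iUnion (fun j => pgram (a j) (v j) (w j)) j
    · conv_lhs => rw [hU]
      exact measure_iUnion_fintype_le _ _
  have h1 : LT T ξ = ∑ j, LT (pgram (a j) (v j) (w j)) ξ :=
    int_sum hfin hT.2.2.1.measurableSet (fun j => (pgram_compact _ _ _).isClosed.measurableSet) hU
      hsum (int_ker hT.isCompact ξ)
  rw [h1]
  unfold V
  refine Finset.sum_congr rfl fun j _ => ?_
  rw [LT_pgram (h j)]
  rfl

end Pool.Agent.RepPara
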