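import Pool.Agent.RepPara.Core

/-!
# Reptiles made of parallelograms: nonsquare numbers of pieces
-/

namespace Pool.Agent.RepPara

open Filter Topology RepTile

variable {κ : Type*} [Fintype κ] {D : Dat κ} {ι : Type*} [Fintype ι] {r : ℝ} {τ : ι → E2}
  {B : ι → E2 ≃ₗᵢ[ℝ] E2}

/-- applying an additive functional to the coefficients -/
noncomputable def ap (φ : ℝ →+ ℝ) (F : ℝ →₀ ℝ) : ℝ →₀ ℝ := Finsupp.mapRange φ φ.map_zero F

theorem ap_sum (φ : ℝ →+ ℝ) {ι : Type*} (t : Finset ι) (F : ι → ℝ →₀ ℝ) :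
    ap φ (∑ i ∈ t, F i) = ∑ i ∈ t, ap φ (F i) := map_sum (Finsupp.mapRange.addMonoidHom φ) F t

theorem ap_neg (φ : ℝ →+ ℝ) (F : ℝ →₀ ℝ) : ap φ (-F) = -ap φ F :=
  map_neg (Finsupp.mapRange.addMonoidHom φ) F

theorem ap_smul {φ : ℝ →+ ℝ} {a b : ℝ} (h : ∀ y, φ (a * y) = b * φ y) (F : ℝ →₀ ℝ) :
    ap φ (a • F) = b • ap φ F := by
  ext y
  show φ (a * F y) = b * φ (F y)
  exact h _

theorem ap_mapDomain (φ : ℝ →+ ℝ) (f : ℝ → ℝ) (F : ℝ →₀ ℝ) :
    ap φ (F.mapDomain f) = (ap φ F).mapDomain f :=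
  (Finsupp.mapDomain_mapRange f F φ φ.map_zero φ.map_add).symm

theorem mas_ap (φ : ℝ →+ ℝ) (F : ℝ →₀ ℝ) : mas (ap φ F) = φ (mas F) := by
  unfold mas ap
  rw [Finsupp.sum_mapRange_index (by simp), Finsupp.sum, Finsupp.sum, map_sum]

/-- reflection of the net edges -/
theorem gF_neg {u : E2} (hu : u ≠ 0) (hA : All D u) :
    gF D (-u) = -(gF D u).mapDomain fun y => (-1) * y + 0 := by
  classical
  refine ev_inj fun s => ?_
  rw [ev_neg, ev_mapDomain, ev_gF D (neg_ne_zero.mpr hu), ev_gF D hu, zero_mul, Real.exp_zero, one_mul]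
  have h1 : GG D (-u) s = GG D u (-1 * s) := by
    unfold GG
    refine Finset.sum_congr rfl fun j _ => ?_
    rw [if_pos (hA j), if_pos ((hA j).neg)]
    congr 1
    rw [smul_neg, neg_one_mul, neg_smul]
  rw [h1]
  ring

theorem gF_ne_zero [Nonempty κ] {u : E2} (hu : u ≠ 0) (hA : All D u) : gF D u ≠ 0 := by
  classical
  intro h
  have h1 := ev_gF D hu 1
  rw [h, ev_zero, one_mul] at h1
  have h2 : 0 < GG D u 1 := by
    unfold GG
    refine Finset.sum_pos (fun j _ => ?_) Finset.univ_nonempty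
    rw [if_pos (hA j)]
    exact Vj_pos D _ _
  exact h2.ne h1

theorem mom_neg' (F : ℝ →₀ ℝ) : mom (-F) = -mom F := momL.map_neg F

/-- If the number of pieces is not a square, no piece preserves one of the two directions. -/
theorem nonsq [Nonempty κ] (S : Sys D r τ B) (hn : ¬ IsSquare (Fintype.card ι)) {u₁ u₂ : E2}
    (h₁ : ‖u₁‖ = 1) (h₂ : ‖u₂‖ = 1) (hA₁ : All D u₁) (hA₂ : All D u₂) (hne : u₂ ≠ u₁)
    (hne' : u₂ ≠ -u₁) (i₀ : ι) : ¬ (B i₀ u₁ = u₁ ∨ B i₀ u₁ = -u₁) := by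
  classical
  intro hi₀
  have hu₁ := ne_zero_of_norm h₁
  have hu₂ := ne_zero_of_norm h₂
  -- the functional
  obtain ⟨y₀, hy₀⟩ : ∃ y, gF D u₁ y ≠ 0 := by
    by_contra h
    push Not at h
    exact gF_ne_zero hu₁ hA₁ (Finsupp.ext h)
  obtain ⟨φ, hφ, hφ0⟩ := exists_phi hn hy₀
  have hcard0 := card_ne_zero S
  have hsr : Real.sqrt (Fintype.card ι) * r = 1 := by
    have e1 : Real.sqrt (Fintype.card ι) = 1 / r := by
      rw [Real.sqrt_eq_iff_mul_self_eq (Nat.cast_nonneg _) (by have := S.r0; positivity)]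
      have hr := S.r0.ne'
      field_simp
      have := S.card
      linarith
    rw [e1]
    exact one_div_mul_cancel S.r0.ne'
  have hφr : ∀ y, φ (r * y) = -r * φ y := by
    intro y
    have e1 := hφ (r * y)
    rw [← mul_assoc, hsr, one_mul] at e1
    have e2 : r * φ y = -(Real.sqrt (Fintype.card ι) * r) * φ (r * y) := by
      rw [e1]; ring
    rw [hsr] at e2
    linarith
  set P : E2 → ℝ →₀ ℝ := fun u => ap φ (gF D u) with hP
  have hstar : ∀ u : E2, ‖u‖ = 1 →
      P u = (-r) • ∑ i, (P (B i u)).mapDomain fun y => r * y + inner ℝ (τ i) u := by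
    intro u hu
    rw [hP]
    simp only
    conv_lhs => rw [star S hu]
    rw [ap_smul hφr, ap_sum]
    congr 1
    exact Finset.sum_congr rfl fun i _ => ap_mapDomain φ _ _
  have hmas : ∀ u : E2, u ≠ 0 → mas (P u) = 0 := by
    intro u hu
    rw [hP]
    simp only
    rw [mas_ap, mas_gF D hu, map_zero]
  have hmomneg : ∀ u : E2, u ≠ 0 → All D u → mom (P (-u)) = mom (P u) := by
    intro u hu hA
    rw [hP]
    simp only
    rw [gF_neg hu hA, ap_neg, ap_mapDomain, mom_neg', mom_mapDomain]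
    ring
  have hmom : ∀ u : E2, ‖u‖ = 1 → mom (P u) = -(r ^ 2 * ∑ i, mom (P (B i u))) := by
    intro u hu
    have hB : ∀ i, B i u ≠ 0 := fun i => ne_zero_of_norm (by rw [(B i).norm_map, hu])
    conv_lhs => rw [hstar u hu]
    show momL ((-r) • ∑ i, _) = _
    rw [map_smul, map_sum, smul_eq_mul, Finset.mul_sum, Finset.mul_sum, ← Finset.sum_neg_distrib]
    refine Finset.sum_congr rfl fun i _ => ?_
    show -r * mom _ = _
    rw [mom_mapDomain, hmas _ (hB i)]
    ring
  -- the four unit vectors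
  have honly : ∀ u : E2, ‖u‖ = 1 → All D u → (u = u₁ ∨ u = -u₁) ∨ (u = u₂ ∨ u = -u₂) :=
    fun u hu hA => only_two h₁ h₂ hu hA₁ hA₂ hA hne hne'
  have hB1 : ∀ i, (B i u₁ = u₁ ∨ B i u₁ = -u₁) ∨ (B i u₁ = u₂ ∨ B i u₁ = -u₂) := fun i =>
    honly _ (by rw [(B i).norm_map, h₁]) (hA₁.map S h₁ i)
  have hB2 : ∀ i, (B i u₂ = u₁ ∨ B i u₂ = -u₁) ∨ (B i u₂ = u₂ ∨ B i u₂ = -u₂) := fun i =>
    honly _ (by rw [(B i).norm_map, h₂]) (hA₂.map S h₂ i)
  have hexcl : ∀ i (x : E2), (B i u₁ = x ∨ B i u₁ = -x) → (B i u₂ = x ∨ B i u₂ = -x) → False := by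
    intro i x h h'
    have h3 : B i u₂ = B i u₁ ∨ B i u₂ = B i (-u₁) := by
      rw [map_neg]
      rcases h with h | h <;> rcases h' with h' | h'
      · left; rw [h, h']
      · right; rw [h, h']
      · right; rw [h, h', neg_neg]
      · left; rw [h, h']
    rcases h3 with h3 | h3
    · exact hne ((B i).injective h3)
    · exact hne' ((B i).injective h3)
  set z₁ := mom (P u₁) with hz₁
  set z₂ := mom (P u₂) with hz₂
  have hv1 : ∀ x : E2, (x = u₁ ∨ x = -u₁) → mom (P x) = z₁ := by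
    rintro x (h | h)
    · rw [h]
    · rw [h, hmomneg u₁ hu₁ hA₁]
  have hv2 : ∀ x : E2, (x = u₂ ∨ x = -u₂) → mom (P x) = z₂ := by
    rintro x (h | h)
    · rw [h]
    · rw [h, hmomneg u₂ hu₂ hA₂]
  set A : Finset ι := Finset.univ.filter fun i => B i u₁ = u₁ ∨ B i u₁ = -u₁ with hA
  have e1 : z₁ = -(r ^ 2 * (A.card * z₁ + (Fintype.card ι - A.card) * z₂)) := by
    have e2 := hmom u₁ h₁
    have e3 : ∑ i, mom (P (B i u₁)) = ∑ i, (if i ∈ A then z₁ else z₂) := by
      refine Finset.sum_congr rfl fun i _ => ?_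
      by_cases hi : i ∈ A
      · rw [if_pos hi]
        rw [hA, Finset.mem_filter] at hi
        exact hv1 _ hi.2
      · rw [if_neg hi]
        rw [hA, Finset.mem_filter] at hi
        push Not at hi
        refine hv2 _ ((hB1 i).resolve_left ?_)
        rintro (h | h)
        · exact (hi (Finset.mem_univ i)).1 h
        · exact (hi (Finset.mem_univ i)).2 h
    have e4 : ∑ i, (if i ∈ A then z₁ else z₂) = A.card * z₁ + (Fintype.card ι - A.card) * z₂ := by
      have e5 : ∀ i, (if i ∈ A then z₁ else z₂) = z₂ + (if i ∈ A then z₁ - z₂ else 0) := by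
        intro i
        split_ifs <;> ring
      rw [Finset.sum_congr rfl fun i _ => e5 i, Finset.sum_add_distrib, Finset.sum_const,
        Finset.card_univ, nsmul_eq_mul, ← Finset.sum_filter, Finset.sum_const, nsmul_eq_mul,
        Finset.filter_mem_eq_inter, Finset.univ_inter]
      ring
    rw [e3, e4] at e2
    exact e2
  have e2 : z₂ = -(r ^ 2 * (A.card * z₂ + (Fintype.card ι - A.card) * z₁)) := by
    have e2 := hmom u₂ h₂
    have e3 : ∑ i, mom (P (B i u₂)) = ∑ i, (if i ∈ A then z₂ else z₁) := by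
      refine Finset.sum_congr rfl fun i _ => ?_
      by_cases hi : i ∈ A
      · rw [if_pos hi]
        rw [hA, Finset.mem_filter] at hi
        exact hv2 _ ((hB2 i).resolve_left fun h => hexcl i u₁ hi.2 h)
      · rw [if_neg hi]
        rw [hA, Finset.mem_filter] at hi
        push Not at hi
        have h3 : B i u₁ = u₂ ∨ B i u₁ = -u₂ := by
          refine (hB1 i).resolve_left ?_
          rintro (h | h)
          · exact (hi (Finset.mem_univ i)).1 h
          · exact (hi (Finset.mem_univ i)).2 h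
        exact hv1 _ ((hB2 i).resolve_right fun h => hexcl i u₂ h3 h)
    have e4 : ∑ i, (if i ∈ A then z₂ else z₁) = A.card * z₂ + (Fintype.card ι - A.card) * z₁ := by
      have e5 : ∀ i, (if i ∈ A then z₂ else z₁) = z₁ + (if i ∈ A then z₂ - z₁ else 0) := by
        intro i
        split_ifs <;> ring
      rw [Finset.sum_congr rfl fun i _ => e5 i, Finset.sum_add_distrib, Finset.sum_const,
        Finset.card_univ, nsmul_eq_mul, ← Finset.sum_filter, Finset.sum_const, nsmul_eq_mul,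
        Finset.filter_mem_eq_inter, Finset.univ_inter]
      ring
    rw [e3, e4] at e2
    exact e2
  have hApos : (0 : ℝ) < A.card := by
    have : i₀ ∈ A := by
      rw [hA, Finset.mem_filter]
      exact ⟨Finset.mem_univ _, hi₀⟩
    exact_mod_cast Finset.card_pos.mpr ⟨i₀, this⟩
  have hr2 : 0 < r ^ 2 := pow_pos S.r0 2
  have hsum : z₁ + z₂ = 0 := by
    have h3 : z₁ + z₂ = -((Fintype.card ι : ℝ) * r ^ 2 * (z₁ + z₂)) := by linear_combination e1 + e2
    rw [S.card] at h3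
    linarith
  have hz10 : z₁ = 0 := by
    have h3 : z₂ = -z₁ := by linarith
    rw [h3] at e1
    have h4 : z₁ * (2 * r ^ 2 * A.card) = 0 := by linear_combination e1 + z₁ * S.card
    have h5 : 0 < 2 * r ^ 2 * (A.card : ℝ) := mul_pos (mul_pos two_pos hr2) hApos
    exact (mul_eq_zero.mp h4).resolve_right h5.ne'
  have hz20 : z₂ = 0 := by linarith
  -- uniqueness
  have hmom0 : ∀ u : E2, ‖u‖ = 1 → All D u → mom (P u) = 0 := by
    intro u hu hA
    rcases honly u hu hA with h | h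
    · rw [hv1 u h, hz10]
    · rw [hv2 u h, hz20]
  set U : Set E2 := {u | ‖u‖ = 1 ∧ All D u} with hU
  have hfin : U.Finite := by
    refine Set.Finite.subset (Set.toFinite ({u₁, -u₁, u₂, -u₂} : Set E2)) ?_
    rintro u ⟨hu, hA⟩
    simp only [Set.mem_insert_iff, Set.mem_singleton_iff]
    rcases honly u hu hA with (h | h) | (h | h)
    · exact Or.inl h
    · exact Or.inr (Or.inl h)
    · exact Or.inr (Or.inr (Or.inl h))
    · exact Or.inr (Or.inr (Or.inr h))
  have hUfin : Finite U := hfin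
  obtain ⟨inst⟩ := nonempty_fintype U
  have hbd : ∀ u : U, ∃ K R : ℝ, 0 ≤ K ∧ 0 ≤ R ∧
      ∀ s, |ev (P (u : E2)) s| ≤ K * |s| ^ 2 * Real.exp (R * |s|) := fun u =>
    ev_bound (hmas _ (ne_zero_of_norm u.2.1)) (hmom0 _ u.2.1 u.2.2)
  choose K R hK hR hKR using hbd
  have huniq := uniq (U := U) (fun u s => ev (P (u : E2)) s) (r := r)
    (q := r * Fintype.card ι) (p := 2) (c := ∑ i, ‖τ i‖) (K := ∑ u, K u) (R := ∑ u, R u)
    S.r0 S.r1 (le_of_eq (by linear_combination r * S.card))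
    (Finset.sum_nonneg fun i _ => norm_nonneg _) (Finset.sum_nonneg fun u _ => hK u)
    (Finset.sum_nonneg fun u _ => hR u) ?_ ?_
  · have h3 := huniq ⟨u₁, h₁, hA₁⟩
    have h4 : P u₁ = 0 := ev_inj fun s => by rw [ev_zero]; exact h3 s
    have h5 : P u₁ y₀ = φ (gF D u₁ y₀) := rfl
    rw [h4] at h5
    exact hφ0 h5.symm
  · intro u s
    refine (hKR u s).trans ?_
    have h3 : K u ≤ ∑ u, K u := Finset.single_le_sum (fun u _ => hK u) (Finset.mem_univ u)
    have h4 : R u ≤ ∑ u, R u := Finset.single_le_sum (fun u _ => hR u) (Finset.mem_univ u)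
    refine mul_le_mul (mul_le_mul_of_nonneg_right h3 (by positivity))
      (Real.exp_le_exp.mpr (mul_le_mul_of_nonneg_right h4 (abs_nonneg s))) (Real.exp_pos _).le ?_
    exact mul_nonneg ((hK u).trans h3) (by positivity)
  · rintro ⟨u, hu, hA⟩ s M hM
    have h3 : ∀ i, ‖B i u‖ = 1 := fun i => by rw [(B i).norm_map, hu]
    show |ev (P u) s| ≤ _
    rw [hstar u hu, ev_smul, ev_sum, abs_mul, abs_neg, abs_of_pos S.r0]
    have h4 : |∑ i, ev ((P (B i u)).mapDomain fun y => r * y + inner ℝ (τ i) u) s| ≤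
        ∑ _i : ι, Real.exp ((∑ i, ‖τ i‖) * |s|) * M := by
      refine (Finset.abs_sum_le_sum_abs _ _).trans (Finset.sum_le_sum fun i _ => ?_)
      rw [ev_mapDomain, abs_mul, abs_of_pos (Real.exp_pos _)]
      exact mul_le_mul (Real.exp_le_exp.mpr (inner_le τ i hu s)) (hM ⟨B i u, h3 i, hA.map S hu i⟩)
        (abs_nonneg _) (Real.exp_pos _).le
    refine (mul_le_mul_of_nonneg_left h4 S.r0.le).trans (le_of_eq ?_)
    rw [Finset.sum_const, Finset.card_univ, nsmul_eq_mul]
    ring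

/-- composition of two dissections -/
theorem Sys.comp {ι' : Type*} [Fintype ι'] {r' : ℝ} {τ' : ι' → E2} {B' : ι' → E2 ≃ₗᵢ[ℝ] E2}
    (S : Sys D r τ B) (S' : Sys D r' τ' B') :
    Sys D (ι := ι × ι') (r * r') (fun p => τ p.1 + r • (B p.1).symm (τ' p.2))
      (fun p => (B p.1).trans (B' p.2)) where
  r0 := mul_pos S.r0 S'.r0
  r1 := by
    have h1 := S.r0
    have h2 := S.r1
    have h3 := S'.r1
    nlinarith
  card := by
    rw [Fintype.card_prod]
    push_cast
    have h1 := S.card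
    have h2 := S'.card
    linear_combination (Fintype.card ι' : ℝ) * r' ^ 2 * h1 + h2
  eq := by
    intro ξ
    rw [S.eq ξ, Fintype.sum_prod_type, Finset.mul_sum, Finset.mul_sum]
    refine Finset.sum_congr rfl fun i _ => ?_
    rw [S'.eq (r • B i ξ), Finset.mul_sum, Finset.mul_sum, Finset.mul_sum, Finset.mul_sum]
    refine Finset.sum_congr rfl fun j _ => ?_
    have h1 : inner ℝ (τ i + r • (B i).symm (τ' j)) ξ =
        inner ℝ (τ i) ξ + inner ℝ (τ' j) (r • B i ξ) := by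
      rw [inner_add_left, inner_smul_left, inner_smul_right]
      have h2 : inner ℝ ((B i).symm (τ' j)) ξ = inner ℝ (τ' j) (B i ξ) := by
        rw [← (B i).inner_map_map ((B i).symm (τ' j)) ξ, (B i).apply_symm_apply]
      rw [h2]
      simp
    have h3 : (r * r') • ((B i).trans (B' j)) ξ = r' • B' j (r • B i ξ) := by
      rw [map_smul, smul_smul, mul_comm r r']
      rfl
    show _ = (r * r') ^ 2 * (Real.exp (inner ℝ (τ i + r • (B i).symm (τ' j)) ξ) *
      V D ((r * r') • ((B i).trans (B' j)) ξ))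
    rw [h1, h3, Real.exp_add]
    ring

/-- **Main theorem, analytic form.** -/
theorem main_sys [Nonempty κ] {ι' : Type*} [Fintype ι'] {r' : ℝ} {τ' : ι' → E2}
    {B' : ι' → E2 ≃ₗᵢ[ℝ] E2} (S : Sys D r τ B) (S' : Sys D r' τ' B') :
    IsSquare (Fintype.card ι) ∨ IsSquare (Fintype.card ι') ∨
      IsSquare (Fintype.card ι * Fintype.card ι') := by
  by_contra hcon
  push Not at hcon
  obtain ⟨hn, hm, hnm⟩ := hcon
  obtain ⟨u₁, u₂, h₁, h₂, hA₁, hA₂, hne, hne'⟩ := two_dirs S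
  have hS'' := S.comp S'
  have hι : Nonempty ι := by
    by_contra h
    rw [not_nonempty_iff] at h
    apply card_ne_zero S
    rw [Fintype.card_eq_zero, Nat.cast_zero]
  have hι' : Nonempty ι' := by
    by_contra h
    rw [not_nonempty_iff] at h
    apply card_ne_zero S'
    rw [Fintype.card_eq_zero, Nat.cast_zero]
  obtain ⟨i⟩ := hι
  obtain ⟨j⟩ := hι'
  have hswap : u₁ ≠ u₂ := hne.symm
  have hswap' : u₁ ≠ -u₂ := fun h => hne' (by rw [h, neg_neg])
  have a1 : B i u₁ = u₂ ∨ B i u₁ = -u₂ :=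
    (only_two h₁ h₂ (by rw [(B i).norm_map, h₁]) hA₁ hA₂ (hA₁.map S h₁ i) hne hne').resolve_left
      (nonsq S hn h₁ h₂ hA₁ hA₂ hne hne' i)
  have a2 : B' j u₂ = u₁ ∨ B' j u₂ = -u₁ :=
    (only_two h₂ h₁ (by rw [(B' j).norm_map, h₂]) hA₂ hA₁ (hA₂.map S' h₂ j) hswap
      hswap').resolve_left (nonsq S' hm h₂ h₁ hA₂ hA₁ hswap hswap' j)
  refine nonsq hS'' (by rw [Fintype.card_prod]; exact hnm) h₁ h₂ hA₁ hA₂ hne hne' (i, j) ?_
  show B' j (B i u₁) = u₁ ∨ B' j (B i u₁) = -u₁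
  rcases a1 with a1 | a1
  · rw [a1]; exact a2
  · rw [a1, map_neg]
    rcases a2 with a2 | a2
    · right; rw [a2]
    · left; rw [a2, neg_neg]

end Pool.Agent.RepPara
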